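import Pool.Agent.H407R3.Ortho.Comb

set_option autoImplicit false
set_option maxRecDepth 100000

/-! Adjacency of the faces and the search through all developments. -/

namespace H407R3.Ortho

/-- adjacency of the fourteen faces of the bump: `(k, r, A, B)` in the list of `j` means that face `k` is
adjacent to face `j`, and the (doubled) local coordinates on the common edge are related by the rotation
by `r` quarter turns followed by the translation by `(A, B)` -/
def nbrs : List (List (ℕ × ℕ × ℤ × ℤ)) := [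
  [],
  [],
  [],
  [],
  [],
  [(4, 0, 4, 0), (6, 1, 0, 8), (7, 3, 0, -10), (8, 0, 8, 0)],
  [(4, 0, 0, -4), (5, 3, -8, 0), (8, 0, 0, -8), (9, 3, 2, 0)],
  [(4, 0, 0, 6), (5, 1, -10, 0), (8, 0, 0, 10), (9, 1, 4, 0)],
  [(5, 0, -8, 0), (6, 0, 0, 8), (7, 0, 0, -10), (9, 2, 2, 0)],
  [(4, 2, -2, 0), (6, 1, 0, -2), (7, 3, 0, 4), (8, 2, 2, 0), (10, 1, 0, 2), (11, 3, 0, 0), (12, 2, 0, 0)],
  [(4, 0, 0, 0), (9, 3, -2, 0), (12, 0, 0, -2), (13, 3, 0, 0), (17, 0, 0, 2), (18, 3, 2, 0)],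
  [(4, 0, 0, 2), (9, 1, 0, 0), (12, 0, 0, 4), (13, 1, 2, 0), (17, 0, 0, 0), (18, 1, 4, 0)],
  [(9, 2, 0, 0), (10, 0, 0, 2), (11, 0, 0, -4), (18, 2, 4, 0)],
  [],
  [(13, 0, 4, 0), (15, 0, 0, -8), (16, 0, 0, 10), (19, 0, 8, 0)],
  [(13, 3, 4, 0), (14, 0, 0, 8), (17, 0, 0, -2), (19, 3, 8, 0)],
  [(13, 1, 6, 0), (14, 0, 0, -10), (17, 0, 0, 4), (19, 1, 10, 0)],
  [(10, 0, 0, -2), (11, 0, 0, 0), (13, 2, -2, 0), (15, 0, 0, 2), (16, 0, 0, -4), (18, 2, 0, 0), (19, 2, 2, 0)],
  [(10, 1, 0, -2), (11, 3, 0, 4), (12, 2, 4, 0), (17, 2, 0, 0)],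
  [(14, 0, -8, 0), (15, 1, 0, -8), (16, 3, 0, 10), (17, 2, 2, 0)]]

def fd (i : ℕ) : FD := faces.getD i (3, true, 0, [])
def nbr (i : ℕ) : List (ℕ × ℕ × ℤ × ℤ) := nbrs.getD i []

section
variable {R : Type*} [CommRing R]

/-- sign in the local coordinates -/
def sgn (f : FD) : Bool := bif Nat.beq f.1 1 then !f.2.1 else f.2.1

/-- local coordinates (of a vector of doubled coordinates), seen from outside -/
def loc (f : FD) (N : ℕ → R) : R × R :=
  (N (o0 f.1), bif sgn f then N (o1 f.1) else - N (o1 f.1))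

/-- rotation by `r` quarter turns -/
def rot (r : ℕ) (x : R × R) : R × R :=
  match r with
  | 0 => x
  | 1 => (-x.2, x.1)
  | 2 => (-x.1, -x.2)
  | _ => (x.2, -x.1)

/-- a placement: rotation and translation -/
def app (P : ℕ × ℤ × ℤ) (x : R × R) : R × R :=
  ((rot P.1 x).1 + (P.2.1 : R), (rot P.1 x).2 + (P.2.2 : R))

end

/-- composition of placements -/
def comp (P Q : ℕ × ℤ × ℤ) : ℕ × ℤ × ℤ :=
  let v := rot P.1 (Q.2.1, Q.2.2)
  ((P.1 + Q.1) % 4, v.1 + P.2.1, v.2 + P.2.2)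

/-- doubled coordinates of the representative point of a type vector -/
def sc (t : TV) (a : ℕ) : ℤ := (get t a : ℤ) - 7

/-- add an integer to a coordinate -/
def bump (N : ℕ → ℤ) (c : ℕ) (e : ℤ) (a : ℕ) : ℤ := bif Nat.beq a c then N a + e else N a

def setc (t : TV) (c : ℕ) (v : ℕ) : TV :=
  match c with
  | 0 => (v, t.2.1, t.2.2)
  | 1 => (t.1, v, t.2.2)
  | _ => (t.1, t.2.1, v)

/-- the axes with even (open) type -/
def evens (t : TV) : List ℕ := (List.range 3).filter fun a => Nat.beq (get t a % 2) 0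

/-- the transition is consistent with the edge `t` whose free axis is `c` -/
def cond (f g : FD) (T : ℕ × ℤ × ℤ) (t : TV) (c : ℕ) : Bool :=
  (loc f (sc t) == app T (loc g (sc t))) &&
  (loc f (bump (sc t) c 1) == app T (loc g (bump (sc t) c 1))) &&
  (List.range 3).any fun a => [true, false].any fun s => (List.range 3).any fun a' =>
    [true, false].any fun s' =>
      !(Nat.beq a c) &&
      (TF g (setc t a (bif s then get t a + 1 else get t a - 1)) &&
      (TF f (setc t a' (bif s' then get t a' + 1 else get t a' - 1)) &&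
      (app T (loc g (bump (sc t) a (bif s then -1 else 1))) ==
        loc f (bump (sc t) a' (bif s' then 1 else -1)))))

/-- indices of the faces of the bump -/
def bumpIx : List ℕ := [5, 6, 7, 8, 9, 10, 11, 12, 14, 15, 16, 17, 18, 19]

/-- K3: two different closed faces meet in vertices and unit edges, and for the faces of the bump the
transitions are those of the table -/
def k3 (t : TV) : Bool :=
  (evens t == []) || (List.range 20).all fun j => !CF (fd j) t || (List.range 20).all fun k =>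
    Nat.beq j k || (!CF (fd k) t || (Nat.beq (evens t).length 1 && (!bumpIx.elem j ||
      (nbr j).any fun e => Nat.beq e.1 k && cond (fd j) (fd k) e.2 t ((evens t).headD 0))))

theorem K3 : allT k3 = true := by decide +kernel

/-- placed rectangle, as `(x1, x2, y1, y2)` -/
def prect (f : FD) (P : ℕ × ℤ × ℤ) (r : ℕ × ℕ × ℕ × ℕ) : ℤ × ℤ × ℤ × ℤ :=
  let v1 : ℤ := bif sgn f then (r.2.2.1 : ℤ) - 7 else 7 - (r.2.2.2 : ℤ)
  let v2 : ℤ := bif sgn f then (r.2.2.2 : ℤ) - 7 else 7 - (r.2.2.1 : ℤ)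
  let a := app P (((r.1 : ℤ) - 7, v1) : ℤ × ℤ)
  let b := app P (((r.2.1 : ℤ) - 7, v2) : ℤ × ℤ)
  (min a.1 b.1, max a.1 b.1, min a.2 b.2, max a.2 b.2)

/-- two placed faces overlap -/
def overl (f : FD) (P : ℕ × ℤ × ℤ) (g : FD) (Q : ℕ × ℤ × ℤ) : Bool :=
  f.2.2.2.any fun r => g.2.2.2.any fun q =>
    let a := prect f P r
    let b := prect g Q q
    decide (max a.1 b.1 < min a.2.1 b.2.1) && decide (max a.2.2.1 b.2.2.1 < min a.2.2.2 b.2.2.2)

/-- the search: `true` if no simple path continuing the given one reaches faces `4` or `13` without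
overlap -/
def dead : ℕ → List (ℕ × ℕ × ℤ × ℤ) → Bool
  | n + 1, (j, P) :: L => (nbr j).all fun e =>
      ((j, P) :: L).any (fun x => Nat.beq x.1 e.1) ||
      (((j, P) :: L).any (fun x => overl (fd x.1) x.2 (fd e.1) (comp P e.2)) ||
      (!(Nat.beq e.1 4) && (!(Nat.beq e.1 13) && dead n ((e.1, comp P e.2) :: (j, P) :: L))))
  | _, _ => false

theorem K5 : dead 20 [(17, 0, 0, 0)] = true := by decide +kernel

/-- overlap of open rectangles -/
def rov (r q : ℕ × ℕ × ℕ × ℕ) : Bool :=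
  Nat.ble (max r.1 q.1 + 2) (min r.2.1 q.2.1) && Nat.ble (max r.2.2.1 q.2.2.1 + 2) (min r.2.2.2 q.2.2.2)

def chain : List (ℕ × ℕ × ℕ × ℕ) → Bool
  | [] => true
  | [r] => rov r r
  | r :: l => l.any (rov r) && chain l

theorem K4 : (faces.all fun f => chain f.2.2.2) = true := by decide +kernel

end H407R3.Ortho
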