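import Pool.Agent.H407R3.Ortho.Defs

set_option autoImplicit false

/-! Finite unions of boxes with a common interior point are balls. -/

namespace H407R3.Ortho

open Metric Set Filter Topology

section
variable {E : Type*} [NormedAddCommGroup E] [NormedSpace ℝ E] [FiniteDimensional ℝ E]

/-- radial homeomorphism given by a positively homogeneous continuous positive function -/
theorem radial (N : E → ℝ) (hc : Continuous N) (hpos : ∀ x, x ≠ 0 → 0 < N x)
    (hhom : ∀ (c : ℝ) x, 0 ≤ c → N (c • x) = c * N x) :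
    ∃ e : E ≃ₜ E, ∀ x, ‖e x‖ = N x := by
  have h0 : N 0 = 0 := by have := hhom 0 0 le_rfl; simpa using this
  have hnn : ∀ x, 0 ≤ N x := by
    intro x
    by_cases hx : x = 0
    · rw [hx, h0]
    · exact (hpos x hx).le
  -- lower bound
  obtain ⟨m, hm, hmb⟩ : ∃ m > 0, ∀ x, m * ‖x‖ ≤ N x := by
    rcases subsingleton_or_nontrivial E with hE | hE
    · refine ⟨1, one_pos, fun x => ?_⟩
      have : x = 0 := Subsingleton.elim _ _
      rw [this]; simp [h0]
    · have hcomp : IsCompact (sphere (0 : E) 1) := isCompact_sphere _ _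
      have hne : (sphere (0 : E) 1).Nonempty := NormedSpace.sphere_nonempty.2 zero_le_one
      obtain ⟨y, hy, hmin⟩ := hcomp.exists_isMinOn hne hc.continuousOn
      have hy0 : y ≠ 0 := by
        intro h; rw [h] at hy; simp at hy
      refine ⟨N y, hpos y hy0, fun x => ?_⟩
      by_cases hx : x = 0
      · rw [hx]; simp [h0]
      have hx' : 0 < ‖x‖ := norm_pos_iff.2 hx
      have h1 : (‖x‖⁻¹ • x) ∈ sphere (0 : E) 1 := by
        rw [mem_sphere_zero_iff_norm, norm_smul, norm_inv, norm_norm, inv_mul_cancel₀ hx'.ne']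
      have h2 : N y ≤ N (‖x‖⁻¹ • x) := hmin h1
      rw [hhom _ _ (by positivity)] at h2
      calc N y * ‖x‖ ≤ (‖x‖⁻¹ * N x) * ‖x‖ := by gcongr
        _ = N x := by field_simp
  set F : E → E := fun x => (N x / ‖x‖) • x with hF
  set I : E → E := fun y => (‖y‖ / N y) • y with hI
  have nF : ∀ x, ‖F x‖ = N x := by
    intro x
    by_cases hx : x = 0
    · simp [hF, hx, h0]
    · have hx' : 0 < ‖x‖ := norm_pos_iff.2 hx
      simp only [hF]
      rw [norm_smul, norm_div, norm_norm, Real.norm_of_nonneg (hnn x)]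
      field_simp
  have nI : ∀ y, ‖I y‖ * N y = ‖y‖ ^ 2 := by
    intro y
    by_cases hy : y = 0
    · simp [hI, hy]
    · have h1 := hpos y hy
      simp only [hI]
      rw [norm_smul, norm_div, norm_norm, Real.norm_of_nonneg (hnn y)]
      field_simp
  have FI : ∀ y, F (I y) = y := by
    intro y
    by_cases hy : y = 0
    · simp [hF, hI, hy]
    have h1 := hpos y hy
    have h2 : 0 < ‖y‖ := norm_pos_iff.2 hy
    simp only [hF, hI]
    rw [hhom _ _ (by positivity), norm_smul, norm_div, norm_norm, Real.norm_of_nonneg (hnn y), smul_smul]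
    have : ‖y‖ / N y * N y / (‖y‖ / N y * ‖y‖) * (‖y‖ / N y) = 1 := by field_simp
    rw [this, one_smul]
  have IF : ∀ x, I (F x) = x := by
    intro x
    by_cases hx : x = 0
    · simp [hF, hI, hx]
    have h1 := hpos x hx
    have h2 : 0 < ‖x‖ := norm_pos_iff.2 hx
    simp only [hF, hI]
    rw [hhom _ _ (by positivity), norm_smul, norm_div, norm_norm, Real.norm_of_nonneg (hnn x), smul_smul]
    have : N x / ‖x‖ * ‖x‖ / (N x / ‖x‖ * N x) * (N x / ‖x‖) = 1 := by field_simp
    rw [this, one_smul]
  have cF : Continuous F := by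
    rw [continuous_iff_continuousAt]
    intro x
    by_cases hx : x = 0
    · subst hx
      have e : F 0 = 0 := by simp [hF]
      rw [ContinuousAt, e]
      rw [tendsto_zero_iff_norm_tendsto_zero]
      simp only [nF]
      have := hc.tendsto 0
      rwa [h0] at this
    · have hx' : ‖x‖ ≠ 0 := norm_ne_zero_iff.2 hx
      exact (hc.continuousAt.div continuous_norm.continuousAt hx').smul continuousAt_id
  have cI : Continuous I := by
    rw [continuous_iff_continuousAt]
    intro x
    by_cases hx : x = 0
    · subst hx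
      have e : I 0 = 0 := by simp [hI]
      rw [ContinuousAt, e]
      rw [tendsto_zero_iff_norm_tendsto_zero]
      refine squeeze_zero (fun _ => norm_nonneg _) (g := fun y => ‖y‖ / m) ?_ ?_
      · intro y
        by_cases hy : y = 0
        · simp [hI, hy]
        have h2 : 0 < ‖y‖ := norm_pos_iff.2 hy
        rw [le_div_iff₀ hm]
        have h3 := nI y
        have h4 := hmb y
        have h5 : ‖I y‖ * (m * ‖y‖) ≤ ‖y‖ ^ 2 := by
          rw [← h3]; gcongr
        have h6 : (‖I y‖ * m) * ‖y‖ ≤ ‖y‖ * ‖y‖ := by nlinarith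
        exact le_of_mul_le_mul_right h6 h2
      · have : Tendsto (fun y : E => ‖y‖ / m) (𝓝 0) (𝓝 (‖(0 : E)‖ / m)) :=
          (continuous_norm.div_const m).tendsto 0
        simpa using this
    · exact (continuous_norm.continuousAt.div hc.continuousAt (hpos x hx).ne').smul continuousAt_id
  exact ⟨{ toFun := F, invFun := I, left_inv := IF, right_inv := FI,
           continuous_toFun := cF, continuous_invFun := cI }, nF⟩

theorem star_ball {ι : Type*} (T : Finset ι) (hT : T.Nonempty) (K : ι → Set E)
    (hK : ∀ k ∈ T, Convex ℝ (K k) ∧ IsClosed (K k) ∧ Bornology.IsBounded (K k) ∧ K k ∈ 𝓝 (0 : E)) :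
    ∃ e : E ≃ₜ E, ∀ x, x ∈ (⋃ k ∈ T, K k) ↔ ‖e x‖ ≤ 1 := by
  classical
  set N : E → ℝ := fun x => T.inf' hT (fun k => gauge (K k) x) with hN
  have hc : Continuous N := by
    apply Continuous.finset_inf'_apply
    intro k hk
    exact continuous_gauge (hK k hk).1 (hK k hk).2.2.2
  have hat : ∀ x, ∃ k ∈ T, N x = gauge (K k) x := fun x => Finset.exists_mem_eq_inf' hT _
  have hle : ∀ x, ∀ k ∈ T, N x ≤ gauge (K k) x := fun x k hk => Finset.inf'_le _ hk
  have hpos : ∀ x, x ≠ 0 → 0 < N x := by
    intro x hx
    obtain ⟨k, hk, he⟩ := hat x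
    rw [he]
    exact (gauge_pos (absorbent_nhds_zero (hK k hk).2.2.2)
      ((NormedSpace.isVonNBounded_iff ℝ).2 (hK k hk).2.2.1)).2 hx
  have hhom : ∀ (c : ℝ) x, 0 ≤ c → N (c • x) = c * N x := by
    intro c x hc0
    have hg : ∀ k, gauge (K k) (c • x) = c * gauge (K k) x := by
      intro k; rw [gauge_smul_of_nonneg hc0]; rfl
    apply le_antisymm
    · obtain ⟨k, hk, he⟩ := hat x
      rw [he, ← hg]
      exact hle _ k hk
    · obtain ⟨k, hk, he⟩ := hat (c • x)
      rw [he, hg]
      exact mul_le_mul_of_nonneg_left (hle x k hk) hc0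
  obtain ⟨e, he⟩ := radial N hc hpos hhom
  refine ⟨e, fun x => ?_⟩
  rw [he]
  simp only [mem_iUnion, exists_prop]
  have key : ∀ k ∈ T, (x ∈ K k ↔ gauge (K k) x ≤ 1) := by
    intro k hk
    rw [gauge_le_one_iff_mem_closure (hK k hk).1 (hK k hk).2.2.2, (hK k hk).2.1.closure_eq]
  constructor
  · rintro ⟨k, hk, hx⟩
    exact (hle x k hk).trans ((key k hk).1 hx)
  · intro h
    obtain ⟨k, hk, he'⟩ := hat x
    exact ⟨k, hk, (key k hk).2 (by rwa [← he'])⟩

end

/-- a nonempty finite union of boxes with a common interior point is a ball -/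
theorem boxes_ball {n : ℕ} {ι : Type*} (T : Finset ι) (hT : T.Nonempty)
    (a b : ι → EuclideanSpace ℝ (Fin n)) (P : EuclideanSpace ℝ (Fin n))
    (hP : ∀ k ∈ T, ∀ i, a k i < P i ∧ P i < b k i) {S : Set (EuclideanSpace ℝ (Fin n))}
    (hS : S = ⋃ k ∈ T, Box (a k) (b k)) :
    Nonempty (S ≃ₜ closedBall (0 : EuclideanSpace ℝ (Fin n)) 1) := by
  obtain ⟨e, he⟩ := star_ball T hT (fun k => {x : EuclideanSpace ℝ (Fin n) | x + P ∈ Box (a k) (b k)}) (by
    intro k hk
    have hrw : {x : EuclideanSpace ℝ (Fin n) | x + P ∈ Box (a k) (b k)} =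
        ⋂ i, {x : EuclideanSpace ℝ (Fin n) | a k i - P i ≤ x i ∧ x i ≤ b k i - P i} := by
      ext x
      simp only [Box, mem_ofPred_eq, mem_iInter, PiLp.add_apply]
      refine forall_congr' fun i => ?_
      constructor <;> rintro ⟨h1, h2⟩ <;> constructor <;> linarith
    refine ⟨?_, ?_, ?_, ?_⟩
    · rw [hrw]
      refine convex_iInter fun i => ?_
      intro x hx y hy u v hu hv huv
      simp only [mem_ofPred_eq, PiLp.add_apply, PiLp.smul_apply, smul_eq_mul] at hx hy ⊢
      have e1 : a k i - P i = u * (a k i - P i) + v * (a k i - P i) := by rw [← add_mul, huv, one_mul]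
      have e2 : b k i - P i = u * (b k i - P i) + v * (b k i - P i) := by rw [← add_mul, huv, one_mul]
      constructor
      · rw [e1]
        have := mul_le_mul_of_nonneg_left hx.1 hu
        have := mul_le_mul_of_nonneg_left hy.1 hv
        linarith
      · rw [e2]
        have := mul_le_mul_of_nonneg_left hx.2 hu
        have := mul_le_mul_of_nonneg_left hy.2 hv
        linarith
    · rw [hrw]
      refine isClosed_iInter fun i => ?_
      have hci : Continuous fun x : EuclideanSpace ℝ (Fin n) => x i := by fun_prop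
      exact (isClosed_le continuous_const hci).inter (isClosed_le hci continuous_const)
    · rw [Metric.isBounded_iff_subset_closedBall 0]
      refine ⟨√(∑ i, (|a k i - P i| + |b k i - P i|) ^ 2), ?_⟩
      intro x hx
      rw [hrw] at hx
      simp only [mem_iInter, mem_ofPred_eq] at hx
      rw [mem_closedBall_zero_iff, EuclideanSpace.norm_eq]
      apply Real.sqrt_le_sqrt
      apply Finset.sum_le_sum
      intro i _
      rw [Real.norm_eq_abs]
      have h1 := hx i
      have : |x i| ≤ |a k i - P i| + |b k i - P i| := by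
        rw [abs_le]
        have a1 := neg_abs_le (a k i - P i)
        have a2 := le_abs_self (b k i - P i)
        have a3 := abs_nonneg (a k i - P i)
        have a4 := abs_nonneg (b k i - P i)
        constructor <;> linarith
      gcongr
    · have hopen : IsOpen (⋂ i, {x : EuclideanSpace ℝ (Fin n) | a k i - P i < x i ∧ x i < b k i - P i}) := by
        refine isOpen_iInter_of_finite fun i => ?_
        have hci : Continuous fun x : EuclideanSpace ℝ (Fin n) => x i := by fun_prop
        exact (isOpen_lt continuous_const hci).inter (isOpen_lt hci continuous_const)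
      refine mem_of_superset (hopen.mem_nhds ?_) ?_
      · simp only [mem_iInter, mem_ofPred_eq, PiLp.zero_apply]
        intro i
        have := hP k hk i
        constructor <;> linarith
      · rw [hrw]
        intro x hx
        simp only [mem_iInter, mem_ofPred_eq] at hx ⊢
        exact fun i => ⟨(hx i).1.le, (hx i).2.le⟩)
  refine ⟨((Homeomorph.addRight (-P)).trans e).subtype ?_⟩
  intro x
  rw [hS]
  show x ∈ ⋃ k ∈ T, Box (a k) (b k) ↔ e (x + -P) ∈ closedBall 0 1
  rw [mem_closedBall_zero_iff, ← he]
  simp only [mem_iUnion, mem_ofPred_eq, neg_add_cancel_right]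

/-- a finite union of boxes with a common interior point is an orthostack -/
theorem orthostack_of_boxes {m : ℕ} (hm : 0 < m) (a b : Fin m → E3) (P : E3)
    (hP : ∀ k i, a k i < P i ∧ P i < b k i) {S : Set E3} (hS : S = ⋃ k, Box (a k) (b k)) :
    IsOrthostack S := by
  classical
  haveI : Nonempty (Fin m) := ⟨⟨0, hm⟩⟩
  refine ⟨⟨⟨m, a, b, fun k i => (hP k i).1.trans (hP k i).2, hS⟩, ?_⟩, fun c => ?_⟩
  · exact boxes_ball Finset.univ Finset.univ_nonempty a b P (fun k _ => hP k) (by simp [hS])
  · set T := Finset.univ.filter (fun k : Fin m => a k 2 ≤ c ∧ c ≤ b k 2) with hTd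
    have hsl : slice S c = ⋃ k ∈ T, Box (!₂[a k 0, a k 1] : E2) (!₂[b k 0, b k 1] : E2) := by
      ext q
      simp only [slice, hS, Box, hTd, mem_ofPred_eq, mem_iUnion, Finset.mem_filter, Finset.mem_univ,
        true_and, Fin.forall_fin_succ, exists_prop]
      simp
      refine exists_congr fun k => ?_
      tauto
    by_cases hT : T.Nonempty
    · right
      refine boxes_ball T hT (fun k => (!₂[a k 0, a k 1] : E2)) (fun k => (!₂[b k 0, b k 1] : E2))
        (!₂[P 0, P 1] : E2) ?_ hsl
      intro k _ i
      fin_cases i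
      · exact hP k 0
      · exact hP k 1
    · left
      rw [Finset.not_nonempty_iff_eq_empty] at hT
      rw [hsl, hT]; simp

end H407R3.Ortho
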