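import Pool.Agent.H407R3.Ortho.Types

set_option autoImplicit false
set_option maxRecDepth 100000

/-! Finite combinatorial data of the polyhedron and the finite checks. -/

namespace H407R3.Ortho

/-- a type vector -/
abbrev TV := ℕ × ℕ × ℕ

def get (t : TV) : ℕ → ℕ
  | 0 => t.1
  | 1 => t.2.1
  | _ => t.2.2

def inb (lo hi t : ℕ) : Bool := Nat.ble lo t && Nat.ble t hi

/-- membership in the solid -/
def SM (t : TV) : Bool :=
  (inb 1 7 t.1 && inb 1 7 t.2.1 && inb 1 15 t.2.2) ||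
  (inb 1 11 t.1 && inb 3 5 t.2.1 && inb 3 13 t.2.2) ||
  (inb 3 5 t.1 && inb 1 11 t.2.1 && inb 3 13 t.2.2) ||
  (inb 3 9 t.1 && inb 3 9 t.2.1 && inb 7 9 t.2.2)

/-- types near a given one -/
def nbt (t : TV) : List TV :=
  (nb1 t.1).flatMap fun x => (nb1 t.2.1).flatMap fun y => (nb1 t.2.2).map fun z => (x, y, z)

theorem mem_nbt {t q : TV} : q ∈ nbt t ↔ q.1 ∈ nb1 t.1 ∧ q.2.1 ∈ nb1 t.2.1 ∧ q.2.2 ∈ nb1 t.2.2 := by
  obtain ⟨x, y, z⟩ := q
  simp only [nbt, List.mem_flatMap, List.mem_map, Prod.mk.injEq]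
  constructor
  · rintro ⟨a, ha, b, hb, c, hc, rfl, rfl, rfl⟩; exact ⟨ha, hb, hc⟩
  · rintro ⟨ha, hb, hc⟩; exact ⟨x, ha, y, hb, z, hc, rfl, rfl, rfl⟩

/-- flatness with outward normal `e_a` (`s = true`) or `-e_a` -/
def flatT (a : ℕ) (s : Bool) (t : TV) : Bool :=
  Nat.beq (get t a % 2) 1 && (SM t && (nbt t).all fun q =>
    SM q == (bif s then Nat.ble (get q a) (get t a) else Nat.ble (get t a) (get q a)))

/-- the data of a face: axis, sign of the outward normal, level, open rectangles (in types) -/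
abbrev FD := ℕ × Bool × ℕ × List (ℕ × ℕ × ℕ × ℕ)

/-- the twenty faces -/
def faces : List FD := [
  (0, false, 1, [(1, 7, 1, 15)]),
  (1, false, 1, [(1, 7, 1, 15)]),
  (2, false, 1, [(1, 7, 1, 7)]),
  (2, true, 15, [(1, 7, 1, 7)]),
  (1, true, 7, [(5, 7, 1, 7), (5, 7, 9, 15), (1, 7, 1, 3), (1, 7, 13, 15), (1, 3, 1, 15)]),
  (0, false, 3, [(7, 11, 3, 13)]),
  (2, false, 3, [(3, 5, 7, 11)]),
  (2, true, 13, [(3, 5, 7, 11)]),
  (1, true, 11, [(3, 5, 3, 13)]),
  (0, true, 5, [(7, 11, 3, 7), (7, 11, 9, 13), (9, 11, 3, 13)]),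
  (2, false, 7, [(7, 9, 5, 9), (5, 9, 7, 9)]),
  (2, true, 9, [(7, 9, 5, 9), (5, 9, 7, 9)]),
  (1, true, 9, [(5, 9, 7, 9)]),
  (0, true, 7, [(5, 7, 1, 7), (5, 7, 9, 15), (1, 7, 1, 3), (1, 7, 13, 15), (1, 3, 1, 15)]),
  (1, false, 3, [(7, 11, 3, 13)]),
  (2, false, 3, [(7, 11, 3, 5)]),
  (2, true, 13, [(7, 11, 3, 5)]),
  (1, true, 5, [(7, 11, 3, 7), (7, 11, 9, 13), (9, 11, 3, 13)]),
  (0, true, 9, [(5, 9, 7, 9)]),
  (0, true, 11, [(3, 5, 3, 13)])]

/-- the two other axes -/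
def o0 : ℕ → ℕ
  | 0 => 1
  | _ => 0
def o1 : ℕ → ℕ
  | 2 => 1
  | _ => 2

/-- type in the open face -/
def TF (f : FD) (t : TV) : Bool :=
  Nat.beq (get t f.1) f.2.2.1 && f.2.2.2.any fun r =>
    inb (r.1 + 1) (r.2.1 - 1) (get t (o0 f.1)) && inb (r.2.2.1 + 1) (r.2.2.2 - 1) (get t (o1 f.1))

/-- type in the closed face -/
def CF (f : FD) (t : TV) : Bool :=
  Nat.beq (get t f.1) f.2.2.1 && f.2.2.2.any fun r =>
    inb r.1 r.2.1 (get t (o0 f.1)) && inb r.2.2.1 r.2.2.2 (get t (o1 f.1))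

/-- check on all types -/
def allT (f : TV → Bool) : Bool :=
  (List.range 12).all fun x => (List.range 12).all fun y => (List.range 16).all fun z => f (x, y, z)

theorem allT_spec {f : TV → Bool} (h : allT f = true) {t : TV} (h1 : t.1 < 12) (h2 : t.2.1 < 12)
    (h3 : t.2.2 < 16) : f t = true := by
  simp only [allT, List.all_eq_true, List.mem_range] at h
  exact h _ h1 _ h2 _ h3

/-- K1: the flat types are exactly the types of the open faces -/
def k1 (t : TV) : Bool :=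
  (faces.all fun f => !TF f t || flatT f.1 f.2.1 t) && (!SM t || ((List.range 3).all fun a =>
    [true, false].all fun s =>
    !flatT a s t || faces.any fun f => Nat.beq f.1 a && ((f.2.1 == s) && TF f t)))

theorem K1 : allT k1 = true := by decide +kernel

/-- K2: faces are locally separated -/
def k2 (t : TV) : Bool :=
  !SM t || faces.all fun f => !TF f t || (nbt t).all fun q => faces.all fun g => !TF g q || (f == g)

theorem K2 : allT k2 = true := by decide +kernel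

end H407R3.Ortho
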