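import Mathlib

set_option autoImplicit false

/-! Definitions: orthogonal polyhedra, orthostacks, their faces and edge unfoldings. -/

namespace H407R3.Ortho

open Metric

/-- space -/
abbrev E3 := EuclideanSpace ℝ (Fin 3)

/-- the plane -/
abbrev E2 := EuclideanSpace ℝ (Fin 2)

/-- the closed axis-parallel box with opposite corners `a` and `b` -/
def Box {n : ℕ} (a b : EuclideanSpace ℝ (Fin n)) : Set (EuclideanSpace ℝ (Fin n)) :=
  {p | ∀ i, a i ≤ p i ∧ p i ≤ b i}

/-- An orthogonal polyhedron (of genus `0`): a finite union of non-degenerate axis-parallel boxes,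
homeomorphic to a ball. -/
def IsOrthogonalPolyhedron (S : Set E3) : Prop :=
  (∃ (n : ℕ) (a b : Fin n → E3), (∀ k i, a k i < b k i) ∧ S = ⋃ k, Box (a k) (b k)) ∧
    Nonempty (S ≃ₜ closedBall (0 : E3) 1)

/-- the slice of `S` by the plane `z = c`, as a subset of the plane -/
def slice (S : Set E3) (c : ℝ) : Set E2 := {q | (!₂[q 0, q 1, c] : E3) ∈ S}

/-- An orthostack: an orthogonal polyhedron each slice of which by a plane `z = c` is empty or
homeomorphic to a disc (as the slice is a union of finitely many rectangles, possibly degenerate, it is then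
an orthogonal polygon without holes). -/
def IsOrthostack (S : Set E3) : Prop :=
  IsOrthogonalPolyhedron S ∧
    ∀ c : ℝ, slice S c = ∅ ∨ Nonempty (slice S c ≃ₜ closedBall (0 : E2) 1)

/-- Near `p` the set `S` is the half-space `s * (q i - p i) ≤ 0`. -/
def FlatAt (S : Set E3) (i : Fin 3) (s : ℝ) (p : E3) : Prop :=
  ∃ r > 0, ∀ q : E3, dist q p < r → (q ∈ S ↔ s * (q i - p i) ≤ 0)

/-- the points of the surface lying in no edge -/
def flatPts (S : Set E3) : Set E3 := {p | ∃ i s, (s = 1 ∨ s = -1) ∧ FlatAt S i s p}

/-- The (relatively open) faces of `S`: the connected components of the surface minus the edges. -/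
def IsFace (S F : Set E3) : Prop := ∃ p ∈ flatPts S, F = connectedComponentIn (flatPts S) p

/-- A face without holes: the complement of the closed face in its plane is connected. -/
def HoleFree (F : Set E3) : Prop :=
  ∃ (i : Fin 3) (c : ℝ), closure F ⊆ {p | p i = c} ∧ IsConnected ({p : E3 | p i = c} \ closure F)

/-- The faces `F` and `G`, developed by `φ`, are joined in the plane along (a part of) a common edge. -/
def Joined (φ : Set E3 → E3 → E2) (F G : Set E3) : Prop :=
  ∃ x y : E3, x ≠ y ∧ segment ℝ x y ⊆ closure F ∩ closure G ∧ ∀ z ∈ segment ℝ x y, φ F z = φ G z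

/-- `φ` is an edge unfolding of the surface of `S`: every closed face `F` is laid isometrically in the plane
by `φ F`, different faces do not overlap (their relative interiors are disjoint), and the developed faces are
connected with each other by joints along uncut edges. (The surface is cut along edges only, as whole
faces are laid out.) -/
def IsEdgeUnfolding (S : Set E3) (φ : Set E3 → E3 → E2) : Prop :=
  (∀ F, IsFace S F → ∀ x ∈ closure F, ∀ y ∈ closure F, dist (φ F x) (φ F y) = dist x y) ∧
  (∀ F G, IsFace S F → IsFace S G → F ≠ G → Disjoint (φ F '' F) (φ G '' G)) ∧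
  (∀ F G, IsFace S F → IsFace S G →
    Relation.ReflTransGen (fun A B => IsFace S A ∧ IsFace S B ∧ Joined φ A B) F G)

end H407R3.Ortho
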