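import Pool.Agent.H407R3.Ortho.Faces

set_option autoImplicit false
set_option maxRecDepth 100000

/-! The faces are the components of the flat part; closed faces have no holes. -/

namespace H407R3.Ortho

open Metric Set

/-- inclusive rectangle of types; `99` means unbounded -/
def inr (r : ℕ × ℕ × ℕ × ℕ) (u v : ℕ) : Prop :=
  (r.1 ≤ u ∧ (u ≤ r.2.1 ∨ r.2.1 = 99)) ∧ (r.2.2.1 ≤ v ∧ (v ≤ r.2.2.2 ∨ r.2.2.2 = 99))

def TBr (a l : ℕ) (r : ℕ × ℕ × ℕ × ℕ) : Set E3 :=
  {p | get (tv p) a = l ∧ inr r (get (tv p) (o0 a)) (get (tv p) (o1 a))}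

theorem TBr_convex {a l : ℕ} (ha : a ≤ 2) (hl : l < 99) (r : ℕ × ℕ × ℕ × ℕ) : Convex ℝ (TBr a l r) := by
  interval_cases a
  · have : TBr 0 l r = TB ![(l, l), (r.1, r.2.1), (r.2.2.1, r.2.2.2)] := by
      ext p
      simp only [TBr, TB, mem_ofPred_eq, Fin.forall_fin_succ, inr, get, tv, o0, o1]
      simp
      intro _ _ _ _
      omega
    rw [this]; exact TB_convex _
  · have : TBr 1 l r = TB ![(r.1, r.2.1), (l, l), (r.2.2.1, r.2.2.2)] := by
      ext p
      simp only [TBr, TB, mem_ofPred_eq, Fin.forall_fin_succ, inr, get, tv, o0, o1]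
      simp
      constructor
      · rintro ⟨h1, h2, h3⟩
        exact ⟨h2, ⟨h1.ge, Or.inl h1.le⟩, h3⟩
      · rintro ⟨h2, h1, h3⟩
        exact ⟨by omega, h2, h3⟩
    rw [this]; exact TB_convex _
  · have : TBr 2 l r = TB ![(r.1, r.2.1), (r.2.2.1, r.2.2.2), (l, l)] := by
      ext p
      simp only [TBr, TB, mem_ofPred_eq, Fin.forall_fin_succ, inr, get, tv, o0, o1]
      simp
      constructor
      · rintro ⟨h1, h2, h3⟩
        exact ⟨h2, h3, ⟨h1.ge, Or.inl h1.le⟩⟩
      · rintro ⟨h2, h3, h1⟩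
        exact ⟨by omega, h2, h3⟩
    rw [this]; exact TB_convex _

/-- overlap of inclusive rectangles -/
def rov' (r q : ℕ × ℕ × ℕ × ℕ) : Bool :=
  Nat.ble (max r.1 q.1) (min r.2.1 q.2.1) && Nat.ble (max r.2.2.1 q.2.2.1) (min r.2.2.2 q.2.2.2)

def chain' : List (ℕ × ℕ × ℕ × ℕ) → Bool
  | [] => true
  | [r] => rov' r r
  | r :: l => l.any (rov' r) && chain' l

/-- the type vector with given coordinates -/
def mk (a l u v : ℕ) : TV :=
  match a with
  | 0 => (l, u, v)
  | 1 => (u, l, v)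
  | _ => (u, v, l)

theorem get_mk {a : ℕ} (ha : a ≤ 2) (l u v : ℕ) :
    get (mk a l u v) a = l ∧ get (mk a l u v) (o0 a) = u ∧ get (mk a l u v) (o1 a) = v := by
  interval_cases a <;> simp [mk, get, o0, o1]

theorem rov'_spec {a l : ℕ} (ha : a ≤ 2) {r q : ℕ × ℕ × ℕ × ℕ} (h : rov' r q = true) :
    ∃ p : E3, p ∈ TBr a l r ∧ p ∈ TBr a l q := by
  simp only [rov', Bool.and_eq_true, Nat.ble_eq] at h
  obtain ⟨h1, h2, h3⟩ := get_mk ha l (max r.1 q.1) (max r.2.2.1 q.2.2.1)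
  refine ⟨pt (mk a l (max r.1 q.1) (max r.2.2.1 q.2.2.1)), ?_, ?_⟩
  · simp only [TBr, mem_ofPred_eq, tv_pt, h1, h2, h3, inr]
    refine ⟨trivial, ?_⟩
    omega
  · simp only [TBr, mem_ofPred_eq, tv_pt, h1, h2, h3, inr]
    refine ⟨trivial, ?_⟩
    omega

theorem chain_preconn {a l : ℕ} (ha : a ≤ 2) (hl : l < 99) : ∀ (R : List (ℕ × ℕ × ℕ × ℕ)),
    chain' R = true → IsPreconnected {p : E3 | ∃ r ∈ R, p ∈ TBr a l r}
  | [], _ => by simpa using isPreconnected_empty
  | [r], _ => by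
      have : {p : E3 | ∃ q ∈ [r], p ∈ TBr a l q} = TBr a l r := by ext p; simp
      rw [this]; exact (TBr_convex ha hl r).isPreconnected
  | r :: q :: R, h => by
      have : {p : E3 | ∃ s ∈ r :: q :: R, p ∈ TBr a l s} =
          TBr a l r ∪ {p : E3 | ∃ s ∈ q :: R, p ∈ TBr a l s} := by
        ext p; simp
      rw [this]
      simp only [chain', Bool.and_eq_true] at h
      obtain ⟨h1, h2⟩ := h
      rw [List.any_eq_true] at h1
      obtain ⟨s, hs, h3⟩ := h1
      obtain ⟨p, hp1, hp2⟩ := rov'_spec (l := l) ha h3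
      refine IsPreconnected.union p hp1 ⟨s, hs, hp2⟩ (TBr_convex ha hl r).isPreconnected ?_
      exact chain_preconn ha hl (q :: R) (by simpa only [chain', Bool.and_eq_true] using h2)

/-- inclusive version of the open rectangles -/
def oi (r : ℕ × ℕ × ℕ × ℕ) : ℕ × ℕ × ℕ × ℕ := (r.1 + 1, r.2.1 - 1, r.2.2.1 + 1, r.2.2.2 - 1)

theorem K4' : (faces.all fun f => chain' (f.2.2.2.map oi) && !f.2.2.2.isEmpty) = true := by decide +kernel

theorem FS_eq {f : FD} (hf : f ∈ faces) :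
    FS f = {p : E3 | ∃ r ∈ f.2.2.2.map oi, p ∈ TBr f.1 f.2.2.1 r} := by
  ext p
  obtain ⟨-, -, -, h4⟩ := face_data hf
  simp only [FS, mem_ofPred_eq, TF_iff, List.mem_map, TBr, inr]
  constructor
  · rintro ⟨e, r, hr, a, b⟩
    exact ⟨oi r, ⟨r, hr, rfl⟩, e, ⟨a.1, Or.inl a.2⟩, ⟨b.1, Or.inl b.2⟩⟩
  · rintro ⟨_, ⟨r, hr, rfl⟩, e, ⟨a1, a2⟩, ⟨b1, b2⟩⟩
    obtain ⟨o1', o2, -, -⟩ := h4 r hr
    refine ⟨e, r, hr, ⟨a1, ?_⟩, ⟨b1, ?_⟩⟩
    · rcases a2 with a2 | a2
      · exact a2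
      · simp only [oi] at a2
        split at o1' <;> omega
    · rcases b2 with b2 | b2
      · exact b2
      · simp only [oi] at b2
        split at o2 <;> omega

theorem face_level {f : FD} (hf : f ∈ faces) : f.2.2.1 < 99 := by
  obtain ⟨-, -, h, -⟩ := face_data hf
  split at h <;> omega

theorem FS_preconn {f : FD} (hf : f ∈ faces) : IsPreconnected (FS f) := by
  rw [FS_eq hf]
  refine chain_preconn (face_data hf).1 (face_level hf) _ ?_
  have := K4'
  rw [List.all_eq_true] at this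
  have := this f hf
  simp only [Bool.and_eq_true] at this
  exact this.1

theorem FS_nonempty {f : FD} (hf : f ∈ faces) : (FS f).Nonempty := by
  have := K4'
  rw [List.all_eq_true] at this
  have := this f hf
  simp only [Bool.and_eq_true, Bool.not_eq_true', List.isEmpty_eq_false_iff] at this
  obtain ⟨r, hr⟩ := List.exists_mem_of_ne_nil _ this.2
  obtain ⟨h0, -, -, h4⟩ := face_data hf
  obtain ⟨-, -, o1', o2, o3, o4, o5, o6⟩ := h4 r hr
  obtain ⟨h1, h2, h3⟩ := get_mk h0 f.2.2.1 (r.1 + 1) (r.2.2.1 + 1)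
  refine ⟨pt (mk f.1 f.2.2.1 (r.1 + 1) (r.2.2.1 + 1)), ?_⟩
  simp only [FS, mem_ofPred_eq, tv_pt, TF_iff, h1, h2, h3]
  exact ⟨trivial, r, hr, by omega, by omega⟩

theorem FS_sub {f : FD} (hf : f ∈ faces) : FS f ⊆ flatPts Sol := by
  rw [flatPts_eq]; intro p hp; exact ⟨f, hf, hp⟩

theorem FS_sep {f g : FD} (hf : f ∈ faces) (hg : g ∈ faces) {p : E3} (h1 : p ∈ FS f) (h2 : p ∈ FS g) :
    f = g := sep hf hg h1 (self_mem_nbt _) h2

theorem comp_eq {f : FD} (hf : f ∈ faces) {p : E3} (hp : p ∈ FS f) :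
    connectedComponentIn (flatPts Sol) p = FS f := by
  apply Subset.antisymm
  · have hpre : IsPreconnected (connectedComponentIn (flatPts Sol) p) := isPreconnected_connectedComponentIn
    have hsub : connectedComponentIn (flatPts Sol) p ⊆ flatPts Sol := connectedComponentIn_subset _ _
    have hpm : p ∈ connectedComponentIn (flatPts Sol) p := mem_connectedComponentIn (FS_sub hf hp)
    choose r hr H using tv_near
    set U : Set E3 := ⋃ x ∈ FS f, ball x (r x) with hU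
    set V : Set E3 := ⋃ x ∈ flatPts Sol \ FS f, ball x (r x) with hV
    have hUo : IsOpen U := isOpen_biUnion fun _ _ => isOpen_ball
    have hVo : IsOpen V := isOpen_biUnion fun _ _ => isOpen_ball
    have hUf : ∀ z ∈ flatPts Sol, z ∈ U → z ∈ FS f := by
      intro z hz hzU
      simp only [hU, mem_iUnion, mem_ball] at hzU
      obtain ⟨x, hx, hd⟩ := hzU
      rw [flatPts_eq] at hz
      obtain ⟨g, hg, hzg⟩ := hz
      have : f = g := sep hf hg hx (H x z hd) hzg
      subst this; exact hzg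
    have hVf : ∀ z ∈ flatPts Sol, z ∈ V → z ∉ FS f := by
      intro z hz hzV hzf
      simp only [hV, mem_iUnion, mem_ball] at hzV
      obtain ⟨x, hx, hd⟩ := hzV
      obtain ⟨hx1, hx2⟩ := hx
      rw [flatPts_eq] at hx1
      obtain ⟨g, hg, hxg⟩ := hx1
      have : g = f := sep hg hf hxg (H x z hd) hzf
      subst this; exact hx2 hxg
    have hcov : connectedComponentIn (flatPts Sol) p ⊆ U ∪ V := by
      intro z hz
      by_cases hzf : z ∈ FS f
      · left
        simp only [hU, mem_iUnion]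
        exact ⟨z, hzf, mem_ball_self (hr z)⟩
      · right
        simp only [hV, mem_iUnion]
        exact ⟨z, ⟨hsub hz, hzf⟩, mem_ball_self (hr z)⟩
    have hdis : connectedComponentIn (flatPts Sol) p ∩ (U ∩ V) = ∅ := by
      rw [eq_empty_iff_forall_notMem]
      rintro z ⟨hz, hzU, hzV⟩
      exact hVf z (hsub hz) hzV (hUf z (hsub hz) hzU)
    rcases (isPreconnected_iff_subset_of_disjoint.1 hpre) U V hUo hVo hcov hdis with h | h
    · intro z hz; exact hUf z (hsub hz) (h hz)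
    · exact absurd hp (hVf p (FS_sub hf hp) (h hpm))
  · exact (FS_preconn hf).subset_connectedComponentIn hp (FS_sub hf)

theorem isFace_iff (G : Set E3) : IsFace Sol G ↔ ∃ f ∈ faces, G = FS f := by
  constructor
  · rintro ⟨p, hp, rfl⟩
    have hp' := hp
    rw [flatPts_eq] at hp'
    obtain ⟨f, hf, hpf⟩ := hp'
    exact ⟨f, hf, comp_eq hf hpf⟩
  · rintro ⟨f, hf, rfl⟩
    obtain ⟨p, hp⟩ := FS_nonempty hf
    exact ⟨p, FS_sub hf hp, (comp_eq hf hp).symm⟩

end H407R3.Ortho
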