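import Pool.Agent.H407R3.Ortho.Comb
import Pool.Agent.H407R3.Ortho.Defs

set_option autoImplicit false

/-! The solid and its faces. -/

namespace H407R3.Ortho

open Metric Set

/-- type vector of a point -/
noncomputable def tv (p : E3) : TV := (ty (p 0), ty (p 1), ty (p 2))

theorem get_tv (p : E3) (i : Fin 3) : get (tv p) i = ty (p i) := by
  fin_cases i <;> rfl

theorem get_tv0 (p : E3) : get (tv p) 0 = ty (p 0) := rfl
theorem get_tv1 (p : E3) : get (tv p) 1 = ty (p 1) := rfl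
theorem get_tv2 (p : E3) : get (tv p) 2 = ty (p 2) := rfl

/-- representative point of a type vector -/
noncomputable def pt (t : TV) : E3 :=
  !₂[(((t.1 : ℤ) - 7 : ℤ) : ℝ) / 2, (((t.2.1 : ℤ) - 7 : ℤ) : ℝ) / 2, (((t.2.2 : ℤ) - 7 : ℤ) : ℝ) / 2]

theorem tv_pt (t : TV) : tv (pt t) = t := by
  obtain ⟨a, b, c⟩ := t
  simp only [tv, pt, Prod.mk.injEq]
  refine ⟨?_, ?_, ?_⟩
  · show ty ((((a : ℤ) - 7 : ℤ) : ℝ) / 2) = a
    rw [ty_half]; omega
  · show ty ((((b : ℤ) - 7 : ℤ) : ℝ) / 2) = b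
    rw [ty_half]; omega
  · show ty ((((c : ℤ) - 7 : ℤ) : ℝ) / 2) = c
    rw [ty_half]; omega

/-- the solid -/
def Sol : Set E3 := {p | SM (tv p) = true}

theorem abs_coord_le (p q : E3) (i : Fin 3) : |q i - p i| ≤ dist q p := by
  rw [dist_eq_norm]
  have := PiLp.norm_apply_le (q - p) i
  simpa [Real.norm_eq_abs] using this

theorem dist_lt_of {p q : E3} {r : ℝ} (h : ∀ i, |q i - p i| < r / 2) : dist q p < r := by
  have hr : 0 < r := by have := (abs_nonneg _).trans_lt (h 0); linarith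
  rw [EuclideanSpace.dist_eq]
  rw [Real.sqrt_lt' hr]
  have h' : ∀ i, dist (q i) (p i) ^ 2 < r ^ 2 / 4 := by
    intro i
    rw [Real.dist_eq]
    have := h i
    have h0 := abs_nonneg (q i - p i)
    nlinarith
  rw [Fin.sum_univ_three]
  have a := h' 0
  have b := h' 1
  have c := h' 2
  have : 0 < r ^ 2 := by positivity
  linarith

theorem tv_near (p : E3) : ∃ r > 0, ∀ q : E3, dist q p < r → tv q ∈ nbt (tv p) := by
  obtain ⟨r0, h0, H0⟩ := ty_near (p 0)
  obtain ⟨r1, h1, H1⟩ := ty_near (p 1)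
  obtain ⟨r2, h2, H2⟩ := ty_near (p 2)
  refine ⟨min r0 (min r1 r2), lt_min h0 (lt_min h1 h2), fun q hq => mem_nbt.2 ⟨?_, ?_, ?_⟩⟩
  · exact H0 _ ((abs_coord_le p q 0).trans_lt (hq.trans_le (min_le_left _ _)))
  · exact H1 _ ((abs_coord_le p q 1).trans_lt (hq.trans_le ((min_le_right _ _).trans (min_le_left _ _))))
  · exact H2 _ ((abs_coord_le p q 2).trans_lt (hq.trans_le ((min_le_right _ _).trans (min_le_right _ _))))

theorem tv_approx {p : E3} {t : TV} (ht : t ∈ nbt (tv p)) {r : ℝ} (hr : 0 < r) :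
    ∃ q : E3, dist q p < r ∧ tv q = t := by
  obtain ⟨a, b, c⟩ := t
  rw [mem_nbt] at ht
  obtain ⟨ha, hb, hc⟩ := ht
  obtain ⟨x, hx, rfl⟩ := ty_approx ha (half_pos hr)
  obtain ⟨y, hy, rfl⟩ := ty_approx hb (half_pos hr)
  obtain ⟨z, hz, rfl⟩ := ty_approx hc (half_pos hr)
  refine ⟨!₂[x, y, z], dist_lt_of ?_, rfl⟩
  intro i
  fin_cases i
  · exact hx
  · exact hy
  · exact hz

theorem self_mem_nb1 (t : ℕ) : t ∈ nb1 t := by
  unfold nb1; split <;> simp

theorem self_mem_nbt (t : TV) : t ∈ nbt t := mem_nbt.2 ⟨self_mem_nb1 _, self_mem_nb1 _, self_mem_nb1 _⟩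

theorem closure_types (Q : TV → Prop) :
    closure {p : E3 | Q (tv p)} = {p | ∃ t ∈ nbt (tv p), Q t} := by
  ext p
  rw [Metric.mem_closure_iff]
  constructor
  · intro h
    obtain ⟨r, hr, H⟩ := tv_near p
    obtain ⟨q, hq, hd⟩ := h r hr
    exact ⟨tv q, H q (by rwa [dist_comm]), hq⟩
  · rintro ⟨t, ht, hQ⟩ ε hε
    obtain ⟨q, hd, rfl⟩ := tv_approx ht hε
    exact ⟨q, hQ, by rwa [dist_comm]⟩

/-- sign as a boolean -/
def sg (s : Bool) : ℝ := bif s then 1 else -1

theorem get_nbt {t q : TV} (h : q ∈ nbt t) (i : Fin 3) : get q i ∈ nb1 (get t i) := by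
  rw [mem_nbt] at h
  fin_cases i
  · exact h.1
  · exact h.2.1
  · exact h.2.2

theorem update_near (p : E3) (i : Fin 3) (y : ℝ) : 
    (∀ j, |(WithLp.toLp 2 (Function.update (fun k => p k) i y) : E3) j - p j| ≤ |y - p i|) := by
  intro j
  by_cases h : j = i
  · subst h; simp
  · simp [Function.update_of_ne h]

theorem flat_iff {i : Fin 3} {s : Bool} {p : E3} : FlatAt Sol i (sg s) p ↔ flatT i s (tv p) = true := by
  have key : ∀ q : E3, get (tv p) i % 2 = 1 →
      ((bif s then Nat.ble (get (tv q) i) (get (tv p) i) else Nat.ble (get (tv p) i) (get (tv q) i)) = true ↔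
        sg s * (q i - p i) ≤ 0) := by
    intro q ho
    rw [get_tv] at ho
    rw [get_tv, get_tv]
    cases s
    · simp only [cond_false, Nat.ble_eq, sg]
      rw [le_ty_iff ho]
      constructor <;> intro h <;> linarith
    · simp only [cond_true, Nat.ble_eq, sg]
      rw [ty_le_iff ho]
      constructor <;> intro h <;> linarith
  constructor
  · rintro ⟨r, hr, H⟩
    have hodd : get (tv p) i % 2 = 1 := by
      by_contra hne
      have he : ty (p i) % 2 = 0 := by rw [get_tv] at hne; omega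
      obtain ⟨r1, hr1, H1⟩ := ty_near (p i)
      have hself : ∀ y, |y - p i| < r1 → ty y = ty (p i) := by
        intro y hy
        have := H1 y hy
        unfold nb1 at this
        rw [if_pos he] at this
        simpa using this
      set δ := min (r / 4) (r1 / 2) with hδ
      have d0 : 0 < δ := by rw [hδ]; positivity
      have d1 : δ ≤ r / 4 := min_le_left _ _
      have d2 : δ ≤ r1 / 2 := min_le_right _ _
      have hmem : ∀ e : ℝ, |e| = δ → 
          ((WithLp.toLp 2 (Function.update (fun k => p k) i (p i + e)) : E3) ∈ Sol ↔ p ∈ Sol) ∧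
          ((WithLp.toLp 2 (Function.update (fun k => p k) i (p i + e)) : E3) ∈ Sol ↔ sg s * e ≤ 0) := by
        intro e he'
        set q : E3 := WithLp.toLp 2 (Function.update (fun k => p k) i (p i + e)) with hq
        have hqi : q i = p i + e := by simp [hq]
        have htv : tv q = tv p := by
          have : ∀ j, ty (q j) = ty (p j) := by
            intro j
            by_cases hj : j = i
            · subst hj
              rw [hqi]
              exact hself _ (by rw [add_sub_cancel_left, he']; linarith)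
            · simp [hq, Function.update_of_ne hj]
          simp only [tv, this]
        refine ⟨by simp only [Sol, mem_ofPred_eq, htv], ?_⟩
        have hd : dist q p < r := by
          apply dist_lt_of
          intro j
          refine (update_near p i (p i + e) j).trans_lt ?_
          rw [add_sub_cancel_left, he']; linarith
        rw [H q hd, hqi, add_sub_cancel_left]
      have a := hmem δ (abs_of_pos d0)
      have b := hmem (-δ) (by rw [abs_neg, abs_of_pos d0])
      have c : (sg s * δ ≤ 0 ↔ sg s * (-δ) ≤ 0) := by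
        rw [← a.2, a.1, ← b.1, b.2]
      cases s
      · simp only [sg, cond_false] at c
        have := c.1 (by linarith)
        linarith
      · simp only [sg, cond_true] at c
        have := c.2 (by linarith)
        linarith
    have hp : SM (tv p) = true := by
      have := (H p (by simpa using hr)).2 (by simp)
      exact this
    simp only [flatT, Bool.and_eq_true, hp, List.all_eq_true, true_and]
    refine ⟨by rw [Nat.beq_eq]; exact hodd, ?_⟩
    intro t ht
    obtain ⟨q, hd, rfl⟩ := tv_approx ht hr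
    have h1 : (SM (tv q) = true ↔ sg s * (q i - p i) ≤ 0) := H q hd
    have h2 := key q hodd
    rw [beq_iff_eq, Bool.eq_iff_iff, h1, h2]
  · intro h
    simp only [flatT, Bool.and_eq_true, List.all_eq_true] at h
    obtain ⟨ho, hS, hall⟩ := h
    rw [Nat.beq_eq] at ho
    obtain ⟨r, hr, H⟩ := tv_near p
    refine ⟨r, hr, fun q hq => ?_⟩
    have h1 := hall _ (H q hq)
    rw [beq_iff_eq, Bool.eq_iff_iff] at h1
    show SM (tv q) = true ↔ _
    rw [h1, key q ho]

/-- the (open) face with the given data -/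
def FS (f : FD) : Set E3 := {p | TF f (tv p) = true}

theorem faces_bound : (faces.all fun f =>
    (List.range 3).all (fun a => Nat.beq a f.1 || (Nat.beq a (o0 f.1) || Nat.beq a (o1 f.1))) &&
    (Nat.ble f.1 2 && 
    (Nat.blt f.2.2.1 (if f.1 = 2 then 16 else 12) && (Nat.beq (f.2.2.1 % 2) 1 && f.2.2.2.all fun r =>
      Nat.ble r.2.1 (if o0 f.1 = 2 then 15 else 11) && (Nat.ble r.2.2.2 (if o1 f.1 = 2 then 15 else 11) &&
      (Nat.beq (r.1 % 2) 1 && (Nat.beq (r.2.1 % 2) 1 && (Nat.beq (r.2.2.1 % 2) 1 &&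
      (Nat.beq (r.2.2.2 % 2) 1 && (Nat.ble (r.1 + 2) r.2.1 && Nat.ble (r.2.2.1 + 2) r.2.2.2)))))))))) = true := by
  decide +kernel

theorem face_data {f : FD} (hf : f ∈ faces) :
    f.1 ≤ 2 ∧ f.2.2.1 % 2 = 1 ∧ f.2.2.1 < (if f.1 = 2 then 16 else 12) ∧ ∀ r ∈ f.2.2.2,
      r.2.1 ≤ (if o0 f.1 = 2 then 15 else 11) ∧ r.2.2.2 ≤ (if o1 f.1 = 2 then 15 else 11) ∧
      r.1 % 2 = 1 ∧ r.2.1 % 2 = 1 ∧ r.2.2.1 % 2 = 1 ∧ r.2.2.2 % 2 = 1 ∧ r.1 + 2 ≤ r.2.1 ∧
      r.2.2.1 + 2 ≤ r.2.2.2 := by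
  have := faces_bound
  rw [List.all_eq_true] at this
  have := this f hf
  simp only [Bool.and_eq_true, List.all_eq_true, Nat.ble_eq, Nat.beq_eq, Nat.blt_eq] at this
  obtain ⟨-, h1, h2, h3, h4⟩ := this
  exact ⟨h1, h3, h2, h4⟩

theorem inb_iff {lo hi t : ℕ} : inb lo hi t = true ↔ lo ≤ t ∧ t ≤ hi := by
  simp [inb, Nat.ble_eq]

theorem CF_iff {f : FD} {t : TV} : CF f t = true ↔ get t f.1 = f.2.2.1 ∧ ∃ r ∈ f.2.2.2,
    (r.1 ≤ get t (o0 f.1) ∧ get t (o0 f.1) ≤ r.2.1) ∧
      (r.2.2.1 ≤ get t (o1 f.1) ∧ get t (o1 f.1) ≤ r.2.2.2) := by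
  simp only [CF, Bool.and_eq_true, List.any_eq_true, inb_iff, Nat.beq_eq]

theorem TF_iff {f : FD} {t : TV} : TF f t = true ↔ get t f.1 = f.2.2.1 ∧ ∃ r ∈ f.2.2.2,
    (r.1 + 1 ≤ get t (o0 f.1) ∧ get t (o0 f.1) ≤ r.2.1 - 1) ∧
      (r.2.2.1 + 1 ≤ get t (o1 f.1) ∧ get t (o1 f.1) ≤ r.2.2.2 - 1) := by
  simp only [TF, Bool.and_eq_true, List.any_eq_true, inb_iff, Nat.beq_eq]

theorem CF_bound {f : FD} (hf : f ∈ faces) {t : TV} (h : CF f t = true) :
    t.1 < 12 ∧ t.2.1 < 12 ∧ t.2.2 < 16 := by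
  obtain ⟨h1, h2, h3, h4⟩ := face_data hf
  rw [CF_iff] at h
  obtain ⟨e, r, hr, a, b⟩ := h
  have h5 := h4 r hr
  obtain ⟨x, y, z⟩ := t
  obtain ⟨fa, fs, fl, fr⟩ := f
  simp only at *
  interval_cases fa <;> simp [get, o0, o1] at * <;> omega

theorem TF_CF {f : FD} {t : TV} (h : TF f t = true) : CF f t = true := by
  rw [TF_iff] at h
  rw [CF_iff]
  obtain ⟨e, r, hr, a, b⟩ := h
  exact ⟨e, r, hr, by omega, by omega⟩

theorem SM_bound {t : TV} (h : SM t = true) : t.1 < 12 ∧ t.2.1 < 12 ∧ t.2.2 < 16 := by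
  simp only [SM, Bool.or_eq_true, Bool.and_eq_true, inb_iff] at h
  omega

theorem TF_flat {f : FD} (hf : f ∈ faces) {t : TV} (h : TF f t = true) : flatT f.1 f.2.1 t = true := by
  obtain ⟨h1, h2, h3⟩ := CF_bound hf (TF_CF h)
  have := allT_spec K1 h1 h2 h3
  simp only [k1, Bool.and_eq_true, List.all_eq_true] at this
  have h4 := this.1 f hf
  simpa [h] using h4

theorem TF_SM {f : FD} (hf : f ∈ faces) {t : TV} (h : TF f t = true) : SM t = true := by
  have := TF_flat hf h
  simp only [flatT, Bool.and_eq_true] at this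
  exact this.2.1

theorem flat_TF {t : TV} {i : Fin 3} {s : Bool} (h : flatT i s t = true) :
    ∃ f ∈ faces, f.1 = i ∧ f.2.1 = s ∧ TF f t = true := by
  have hS : SM t = true := by
    simp only [flatT, Bool.and_eq_true] at h
    exact h.2.1
  obtain ⟨h1, h2, h3⟩ := SM_bound hS
  have := allT_spec K1 h1 h2 h3
  simp only [k1, Bool.and_eq_true] at this
  have h4 := this.2
  rw [hS] at h4
  simp only [Bool.not_true, Bool.false_or, List.all_eq_true, List.mem_range] at h4
  have h5 := h4 i i.2 s (by cases s <;> simp)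
  simp only [h, Bool.not_true, Bool.false_or, List.any_eq_true, Bool.and_eq_true, Nat.beq_eq,
    beq_iff_eq] at h5
  exact h5

theorem sep {f g : FD} (hf : f ∈ faces) (hg : g ∈ faces) {t q : TV} (h : TF f t = true)
    (hq : q ∈ nbt t) (h' : TF g q = true) : f = g := by
  have hS := TF_SM hf h
  obtain ⟨h1, h2, h3⟩ := SM_bound hS
  have := allT_spec K2 h1 h2 h3
  simp only [k2, hS, Bool.not_true, Bool.false_or, List.all_eq_true] at this
  have h4 := this f hf
  simp only [h, Bool.not_true, Bool.false_or, List.all_eq_true] at h4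
  have h5 := h4 q hq g hg
  simpa [h'] using h5

theorem flatPts_eq : flatPts Sol = {p | ∃ f ∈ faces, TF f (tv p) = true} := by
  ext p
  constructor
  · rintro ⟨i, s, hs, h⟩
    rcases hs with rfl | rfl
    · have : FlatAt Sol i (sg true) p := h
      obtain ⟨f, hf, -, -, h2⟩ := flat_TF (flat_iff.1 this)
      exact ⟨f, hf, h2⟩
    · have : FlatAt Sol i (sg false) p := h
      obtain ⟨f, hf, -, -, h2⟩ := flat_TF (flat_iff.1 this)
      exact ⟨f, hf, h2⟩
  · rintro ⟨f, hf, h⟩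
    have h1 := TF_flat hf h
    have h2 := (face_data hf).1
    have h3 : FlatAt Sol ⟨f.1, by omega⟩ (sg f.2.1) p := flat_iff.2 h1
    refine ⟨_, _, ?_, h3⟩
    cases f.2.1
    · right; rfl
    · left; rfl

theorem nb1_range {lo hi : ℕ} (h1 : lo % 2 = 1) (h2 : hi % 2 = 1) (h3 : lo + 2 ≤ hi) (t : ℕ) :
    (∃ u ∈ nb1 t, lo + 1 ≤ u ∧ u ≤ hi - 1) ↔ lo ≤ t ∧ t ≤ hi := by
  unfold nb1
  constructor
  · rintro ⟨u, hu, a, b⟩
    split at hu
    · simp only [List.mem_singleton] at hu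
      omega
    · simp only [List.mem_cons, List.not_mem_nil, or_false] at hu
      omega
  · rintro ⟨a, b⟩
    by_cases he : t % 2 = 0
    · rw [if_pos he]
      exact ⟨t, by simp, by omega, by omega⟩
    · rw [if_neg he]
      by_cases h : t = hi
      · exact ⟨t - 1, by simp, by omega, by omega⟩
      · exact ⟨t + 1, by simp, by omega, by omega⟩

theorem nb1_odd {l : ℕ} (h1 : l % 2 = 1) (t : ℕ) : l ∈ nb1 t ↔ t = l := by
  unfold nb1
  split
  · simp only [List.mem_singleton]; omega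
  · simp only [List.mem_cons, List.not_mem_nil, or_false]; omega

theorem CF_TF {f : FD} (hf : f ∈ faces) (t : TV) : CF f t = true ↔ ∃ q ∈ nbt t, TF f q = true := by
  obtain ⟨h1, h2, h3, h4⟩ := face_data hf
  constructor
  · intro h
    rw [CF_iff] at h
    obtain ⟨e, r, hr, a, b⟩ := h
    obtain ⟨-, -, o1', o2, o3, o4, o5, o6⟩ := h4 r hr
    obtain ⟨u, hu, hu1⟩ := (nb1_range o1' o2 o5 _).2 a
    obtain ⟨v, hv, hv1⟩ := (nb1_range o3 o4 o6 _).2 b
    obtain ⟨x, y, z⟩ := t
    obtain ⟨fa, fs, fl, fr⟩ := f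
    simp only at *
    interval_cases fa
    · simp only [get, o0, o1] at *
      refine ⟨(fl, u, v), mem_nbt.2 ⟨(nb1_odd h2 _).2 e, hu, hv⟩, TF_iff.2 ⟨rfl, r, hr, hu1, hv1⟩⟩
    · simp only [get, o0, o1] at *
      refine ⟨(u, fl, v), mem_nbt.2 ⟨hu, (nb1_odd h2 _).2 e, hv⟩, TF_iff.2 ⟨rfl, r, hr, hu1, hv1⟩⟩
    · simp only [get, o0, o1] at *
      refine ⟨(u, v, fl), mem_nbt.2 ⟨hu, hv, (nb1_odd h2 _).2 e⟩, TF_iff.2 ⟨rfl, r, hr, hu1, hv1⟩⟩
  · rintro ⟨q, hq, h⟩
    rw [TF_iff] at h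
    obtain ⟨e, r, hr, a, b⟩ := h
    obtain ⟨-, -, o1', o2, o3, o4, o5, o6⟩ := h4 r hr
    obtain ⟨x, y, z⟩ := t
    obtain ⟨x', y', z'⟩ := q
    obtain ⟨fa, fs, fl, fr⟩ := f
    rw [mem_nbt] at hq
    obtain ⟨q1, q2, q3⟩ := hq
    rw [CF_iff]
    simp only at *
    interval_cases fa
    · simp only [get, o0, o1] at *
      subst e
      exact ⟨(nb1_odd h2 _).1 q1, r, hr, (nb1_range o1' o2 o5 _).1 ⟨_, q2, a⟩,
        (nb1_range o3 o4 o6 _).1 ⟨_, q3, b⟩⟩
    · simp only [get, o0, o1] at *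
      subst e
      exact ⟨(nb1_odd h2 _).1 q2, r, hr, (nb1_range o1' o2 o5 _).1 ⟨_, q1, a⟩,
        (nb1_range o3 o4 o6 _).1 ⟨_, q3, b⟩⟩
    · simp only [get, o0, o1] at *
      subst e
      exact ⟨(nb1_odd h2 _).1 q3, r, hr, (nb1_range o1' o2 o5 _).1 ⟨_, q1, a⟩,
        (nb1_range o3 o4 o6 _).1 ⟨_, q2, b⟩⟩

theorem closure_FS {f : FD} (hf : f ∈ faces) : closure (FS f) = {p | CF f (tv p) = true} := by
  unfold FS
  rw [closure_types (fun t => TF f t = true)]
  ext p
  simp only [mem_ofPred_eq]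
  exact (CF_TF hf _).symm

/-- box of types (an upper bound `99` means no bound) -/
def TB (b : Fin 3 → ℕ × ℕ) : Set E3 :=
  {p | ∀ i, (b i).1 ≤ ty (p i) ∧ (ty (p i) ≤ (b i).2 ∨ (b i).2 = 99)}

theorem TB_convex (b : Fin 3 → ℕ × ℕ) : Convex ℝ (TB b) := by
  intro p hp q hq u v hu hv huv i
  have e : (u • p + v • q) i = u * p i + v * q i := by simp
  rw [e]
  have h1 := hp i
  have h2 := hq i
  have lo : min (p i) (q i) ≤ u * p i + v * q i := by
    have a := min_le_left (p i) (q i)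
    have b := min_le_right (p i) (q i)
    calc min (p i) (q i) = u * min (p i) (q i) + v * min (p i) (q i) := by rw [← add_mul, huv, one_mul]
      _ ≤ _ := by gcongr
  have hi : u * p i + v * q i ≤ max (p i) (q i) := by
    have a := le_max_left (p i) (q i)
    have b := le_max_right (p i) (q i)
    calc u * p i + v * q i ≤ u * max (p i) (q i) + v * max (p i) (q i) := by gcongr
      _ = _ := by rw [← add_mul, huv, one_mul]
  have lo' := ty_mono lo
  have hi' := ty_mono hi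
  rw [ty_mono.map_min] at lo'
  rw [ty_mono.map_max] at hi'
  constructor
  · exact (le_min h1.1 h2.1).trans lo'
  · by_cases h99 : (b i).2 = 99
    · exact Or.inr h99
    · left
      exact hi'.trans (max_le (by tauto) (by tauto))

end H407R3.Ortho
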