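import Pool.Agent.H407R3.Ortho.Unf

set_option autoImplicit false
set_option maxRecDepth 100000

/-! The faces have no holes. -/

namespace H407R3.Ortho

open Metric Set

/-- the complements of the closed faces in their planes, as unions of rectangles of types -/
def cr : List (List (ℕ × ℕ × ℕ × ℕ)) := [
  [(0, 99, 0, 0), (0, 0, 0, 99), (0, 99, 16, 99), (8, 99, 0, 99)],
  [(0, 99, 0, 0), (0, 0, 0, 99), (0, 99, 16, 99), (8, 99, 0, 99)],
  [(0, 99, 0, 0), (0, 0, 0, 99), (8, 99, 0, 99), (0, 99, 8, 99)],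
  [(0, 99, 0, 0), (0, 0, 0, 99), (8, 99, 0, 99), (0, 99, 8, 99)],
  [(4, 4, 4, 12), (4, 99, 8, 8), (0, 99, 0, 0), (0, 0, 0, 99), (0, 99, 16, 99), (8, 99, 0, 99)],
  [(0, 99, 0, 2), (12, 99, 0, 99), (0, 99, 14, 99), (0, 6, 0, 99)],
  [(0, 99, 12, 99), (0, 2, 0, 99), (0, 99, 0, 6), (6, 99, 0, 99)],
  [(0, 99, 12, 99), (0, 2, 0, 99), (0, 99, 0, 6), (6, 99, 0, 99)],
  [(0, 99, 0, 2), (0, 2, 0, 99), (0, 99, 14, 99), (6, 99, 0, 99)],
  [(0, 8, 8, 8), (0, 99, 0, 2), (12, 99, 0, 99), (0, 99, 14, 99), (0, 6, 0, 99)],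
  [(0, 6, 0, 6), (0, 4, 0, 99), (0, 99, 0, 4), (10, 99, 0, 99), (0, 99, 10, 99)],
  [(0, 6, 0, 6), (0, 4, 0, 99), (0, 99, 0, 4), (10, 99, 0, 99), (0, 99, 10, 99)],
  [(0, 4, 0, 99), (0, 99, 0, 6), (10, 99, 0, 99), (0, 99, 10, 99)],
  [(4, 4, 4, 12), (4, 99, 8, 8), (0, 99, 0, 0), (0, 0, 0, 99), (0, 99, 16, 99), (8, 99, 0, 99)],
  [(0, 99, 0, 2), (12, 99, 0, 99), (0, 99, 14, 99), (0, 6, 0, 99)],
  [(12, 99, 0, 99), (0, 99, 0, 2), (0, 6, 0, 99), (0, 99, 6, 99)],
  [(12, 99, 0, 99), (0, 99, 0, 2), (0, 6, 0, 99), (0, 99, 6, 99)],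
  [(0, 8, 8, 8), (0, 99, 0, 2), (12, 99, 0, 99), (0, 99, 14, 99), (0, 6, 0, 99)],
  [(0, 4, 0, 99), (0, 99, 0, 6), (10, 99, 0, 99), (0, 99, 10, 99)],
  [(0, 99, 0, 2), (0, 2, 0, 99), (0, 99, 14, 99), (6, 99, 0, 99)]]

def cri (i : ℕ) : List (ℕ × ℕ × ℕ × ℕ) := cr.getD i []

/-- membership of a pair of types in the closed face -/
def cf (f : FD) (u v : ℕ) : Bool := f.2.2.2.any fun r => inb r.1 r.2.1 u && inb r.2.2.1 r.2.2.2 v

/-- membership in a rectangle, `99` meaning unbounded -/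
def inrb (r : ℕ × ℕ × ℕ × ℕ) (u v : ℕ) : Bool :=
  (Nat.ble r.1 u && (Nat.ble u r.2.1 || Nat.beq r.2.1 99)) &&
    (Nat.ble r.2.2.1 v && (Nat.ble v r.2.2.2 || Nat.beq r.2.2.2 99))

theorem K6 : ((List.range 20).all fun i => chain' (cri i) && (!(cri i).isEmpty &&
    ((cri i).all (fun r => Nat.ble r.1 17 && (Nat.ble r.2.2.1 17 &&
      ((Nat.ble r.2.1 16 || Nat.beq r.2.1 99) && (Nat.ble r.2.2.2 16 || Nat.beq r.2.2.2 99)))) &&
    (List.range 18).all fun u => (List.range 18).all fun v =>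
      (cf (fd i) u v) == !((cri i).any (fun r => inrb r u v))))) = true := by decide +kernel

theorem inrb_iff {r : ℕ × ℕ × ℕ × ℕ} {u v : ℕ} : inrb r u v = true ↔ inr r u v := by
  simp only [inrb, inr, Bool.and_eq_true, Bool.or_eq_true, Nat.ble_eq, Nat.beq_eq]

theorem compl_iff {i : ℕ} (hi : i < 20) (u v : ℕ) :
    cf (fd i) u v = false ↔ ∃ r ∈ cri i, inr r u v := by
  have K := K6
  simp only [List.all_eq_true, List.mem_range, Bool.and_eq_true] at K
  obtain ⟨-, -, h3, h4⟩ := K i hi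
  have h5 := h4 (min u 17) (by omega) (min v 17) (by omega)
  have e1 : cf (fd i) (min u 17) (min v 17) = cf (fd i) u v := by
    unfold cf
    obtain ⟨-, -, -, hd⟩ := face_data (fd_mem hi)
    rw [Bool.eq_iff_iff, List.any_eq_true, List.any_eq_true]
    refine exists_congr fun r => and_congr_right fun hr => ?_
    have h6 := hd r hr
    have a1 : r.2.1 ≤ 15 := h6.1.trans (by split <;> norm_num)
    have a2 : r.2.2.2 ≤ 15 := h6.2.1.trans (by split <;> norm_num)
    simp only [Bool.and_eq_true, inb_iff]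
    omega
  have e2 : (∃ r ∈ cri i, inr r (min u 17) (min v 17)) ↔ ∃ r ∈ cri i, inr r u v := by
    refine exists_congr fun r => and_congr_right fun hr => ?_
    have h6 := h3 r hr
    simp only [Bool.or_eq_true, Nat.ble_eq, Nat.beq_eq] at h6
    unfold inr
    omega
  rw [beq_iff_eq, e1] at h5
  rw [h5, ← e2]
  simp only [Bool.not_eq_false', List.any_eq_true, inrb_iff]

theorem ty_eq_odd {l : ℕ} (h1 : 1 ≤ l) (h2 : l % 2 = 1) {x : ℝ} : ty x = l ↔ x = ((l : ℝ) - 7) / 2 := by
  constructor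
  · intro h
    obtain ⟨n, hn, rfl, h3⟩ := ty_odd (x := x) (by rw [h]; exact h2)
    rw [h] at h3
    have : (l : ℤ) = 2 * n + 7 := by omega
    have : (l : ℝ) = 2 * n + 7 := by exact_mod_cast this
    rw [this]; ring
  · rintro rfl
    have : ((l : ℝ) - 7) / 2 = (((l : ℤ) - 7 : ℤ) : ℝ) / 2 := by push_cast; ring
    rw [this, ty_half]; omega

theorem holeFree {F : Set E3} (hF : IsFace Sol F) : HoleFree F := by
  obtain ⟨f, hf, rfl⟩ := (isFace_iff _).1 hF
  obtain ⟨i, hi, rfl⟩ := mem_fd hf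
  obtain ⟨h2, hodd, -, -⟩ := face_data hf
  have hl := face_level hf
  have K := K6
  simp only [List.all_eq_true, List.mem_range, Bool.and_eq_true] at K
  obtain ⟨k1, k2, -, -⟩ := K i hi
  set f := fd i with hfd
  set a : Fin 3 := ⟨f.1, by omega⟩ with ha
  have plane : ∀ p : E3, p a = ((f.2.2.1 : ℝ) - 7) / 2 ↔ get (tv p) f.1 = f.2.2.1 := by
    intro p
    have : get (tv p) f.1 = ty (p a) := get_tv p a
    rw [this, ty_eq_odd (by omega) hodd]
  refine ⟨a, ((f.2.2.1 : ℝ) - 7) / 2, ?_, ?_⟩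
  · rw [closure_FS hf]
    intro p hp
    exact (plane p).2 (CF_level hp)
  · have e : {p : E3 | p a = ((f.2.2.1 : ℝ) - 7) / 2} \ closure (FS f) =
        {p : E3 | ∃ r ∈ cri i, p ∈ TBr f.1 f.2.2.1 r} := by
      rw [closure_FS hf]
      ext p
      simp only [mem_sdiff, mem_ofPred_eq, plane, TBr]
      have hcf : CF f (tv p) = true ↔ get (tv p) f.1 = f.2.2.1 ∧
          cf f (get (tv p) (o0 f.1)) (get (tv p) (o1 f.1)) = true := by
        simp only [CF, Bool.and_eq_true, Nat.beq_eq]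
        rfl
      rw [hcf]
      constructor
      · rintro ⟨h1, h3⟩
        have h4 : cf f (get (tv p) (o0 f.1)) (get (tv p) (o1 f.1)) = false := by
          rw [← Bool.not_eq_true]
          exact fun h => h3 ⟨h1, h⟩
        obtain ⟨r, hr, h5⟩ := (compl_iff hi _ _).1 h4
        exact ⟨r, hr, h1, h5⟩
      · rintro ⟨r, hr, h1, h5⟩
        refine ⟨h1, fun h => ?_⟩
        have h4 := (compl_iff hi _ _).2 ⟨r, hr, h5⟩
        rw [h.2] at h4
        exact Bool.false_ne_true h4.symm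
    rw [e]
    refine ⟨?_, chain_preconn h2 hl _ k1⟩
    cases hc : cri i with
    | nil => rw [hc] at k2; simp at k2
    | cons r L =>
      -- the last rectangle overlaps itself, but any rectangle has a point: its lower corner
      have hlo : ∀ r ∈ cri i, ∃ p : E3, p ∈ TBr f.1 f.2.2.1 r := by
        have aux : ∀ R : List (ℕ × ℕ × ℕ × ℕ), chain' R = true → ∀ r ∈ R, ∃ p : E3, p ∈ TBr f.1 f.2.2.1 r := by
          intro R
          induction R with
          | nil => intro _ r hr; simp at hr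
          | cons q R ih =>
            intro h r hr
            cases R with
            | nil =>
              simp only [List.mem_singleton] at hr
              subst hr
              obtain ⟨p, hp, -⟩ := rov'_spec (l := f.2.2.1) h2 (show rov' r r = true from h)
              exact ⟨p, hp⟩
            | cons q' R' =>
              simp only [chain', Bool.and_eq_true] at h
              obtain ⟨h1, h2'⟩ := h
              rw [List.any_eq_true] at h1
              obtain ⟨s, hs, h3⟩ := h1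
              obtain ⟨p, hp1, hp2⟩ := rov'_spec (l := f.2.2.1) h2 h3
              rcases List.mem_cons.1 hr with rfl | hr
              · exact ⟨p, hp1⟩
              · exact ih (by simpa only [chain', Bool.and_eq_true] using h2') r hr
        exact aux _ k1
      obtain ⟨p, hp⟩ := hlo r (by rw [hc]; exact List.mem_cons_self)
      rw [← hc]
      exact ⟨p, r, by rw [hc]; exact List.mem_cons_self, hp⟩

end H407R3.Ortho
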