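import Pool.Agent.H407R3.Ortho.FaceC
import Pool.Agent.H407R3.Ortho.Adj

set_option autoImplicit false

/-! Placements of the faces in the plane. -/

namespace H407R3.Ortho

open Metric Set

/-- doubled coordinates -/
def dc (p : E3) : ℕ → ℝ
  | 0 => 2 * p 0
  | 1 => 2 * p 1
  | _ => 2 * p 2

/-- squared distance in the coordinate plane -/
def dsq (x y : ℝ × ℝ) : ℝ := (x.1 - y.1) ^ 2 + (x.2 - y.2) ^ 2

/-- placement of a vector of doubled coordinates -/
def G (P : ℕ × ℤ × ℤ) (f : FD) (N : ℕ → ℝ) : ℝ × ℝ := app P (loc f N)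

/-- shift in direction `e` -/
def shift (N : ℕ → ℝ) (e : ℕ) (l : ℝ) : ℕ → ℝ := fun a => if a = e then N a + l else N a

theorem rot_cases (r : ℕ) : r = 0 ∨ r = 1 ∨ r = 2 ∨ ∃ n, r = n + 3 := by
  rcases r with _ | _ | _ | n
  · exact Or.inl rfl
  · exact Or.inr (Or.inl rfl)
  · exact Or.inr (Or.inr (Or.inl rfl))
  · exact Or.inr (Or.inr (Or.inr ⟨n, rfl⟩))

section
variable {R : Type*} [CommRing R]

theorem rot_zero (x : R × R) : rot 0 x = x := rfl
theorem rot_one (x : R × R) : rot 1 x = (-x.2, x.1) := rfl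
theorem rot_two (x : R × R) : rot 2 x = (-x.1, -x.2) := rfl
theorem rot_three (n : ℕ) (x : R × R) : rot (n + 3) x = (x.2, -x.1) := rfl
theorem rot_three' (x : R × R) : rot 3 x = (x.2, -x.1) := rfl

end

theorem dsq_app (P : ℕ × ℤ × ℤ) (x y : ℝ × ℝ) : dsq (app P x) (app P y) = dsq x y := by
  obtain ⟨r, u, v⟩ := P
  unfold app dsq
  simp only
  rcases rot_cases r with rfl | rfl | rfl | ⟨n, rfl⟩
  · simp only [rot_zero]; ring
  · simp only [rot_one]; ring
  · simp only [rot_two]; ring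
  · simp only [rot_three]; ring

theorem dsq_loc (f : FD) (N N' : ℕ → ℝ) : dsq (loc f N) (loc f N') =
    (N (o0 f.1) - N' (o0 f.1)) ^ 2 + (N (o1 f.1) - N' (o1 f.1)) ^ 2 := by
  unfold dsq loc
  cases sgn f <;> simp only [cond_true, cond_false] <;> ring

theorem dsq_G (P : ℕ × ℤ × ℤ) (f : FD) (N N' : ℕ → ℝ) : dsq (G P f N) (G P f N') =
    (N (o0 f.1) - N' (o0 f.1)) ^ 2 + (N (o1 f.1) - N' (o1 f.1)) ^ 2 := by
  unfold G
  rw [dsq_app, dsq_loc]

theorem loc_shift (f : FD) (N : ℕ → ℝ) (e : ℕ) (l : ℝ) : loc f (shift N e l) =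
    ((loc f N).1 + l * ((loc f (shift N e 1)).1 - (loc f N).1),
      (loc f N).2 + l * ((loc f (shift N e 1)).2 - (loc f N).2)) := by
  unfold loc shift
  by_cases h0 : o0 f.1 = e <;> by_cases h1 : o1 f.1 = e <;> cases sgn f <;>
    simp only [h0, h1, if_true, if_false, cond_true, cond_false, Prod.mk.injEq] <;> constructor <;> ring

theorem app_aff (P : ℕ × ℤ × ℤ) (x y : ℝ × ℝ) (l : ℝ) :
    app P (x.1 + l * (y.1 - x.1), x.2 + l * (y.2 - x.2)) =
    ((app P x).1 + l * ((app P y).1 - (app P x).1), (app P x).2 + l * ((app P y).2 - (app P x).2)) := by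
  obtain ⟨r, u, v⟩ := P
  unfold app
  simp only
  rcases rot_cases r with rfl | rfl | rfl | ⟨n, rfl⟩
  · simp only [rot_zero, Prod.mk.injEq]; constructor <;> ring
  · simp only [rot_one, Prod.mk.injEq]; constructor <;> ring
  · simp only [rot_two, Prod.mk.injEq]; constructor <;> ring
  · simp only [rot_three, Prod.mk.injEq]; constructor <;> ring

theorem G_shift (P : ℕ × ℤ × ℤ) (f : FD) (N : ℕ → ℝ) (e : ℕ) (l : ℝ) : G P f (shift N e l) =
    ((G P f N).1 + l * ((G P f (shift N e 1)).1 - (G P f N).1),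
      (G P f N).2 + l * ((G P f (shift N e 1)).2 - (G P f N).2)) := by
  unfold G
  rw [loc_shift, app_aff]

theorem app_comp {P Q : ℕ × ℤ × ℤ} (hP : P.1 < 4) (hQ : Q.1 < 4) (x : ℝ × ℝ) :
    app (comp P Q) x = app P (app Q x) := by
  obtain ⟨r, u, v⟩ := P
  obtain ⟨r', u', v'⟩ := Q
  unfold comp app
  simp only at *
  interval_cases r <;> interval_cases r' <;>
    simp only [rot_zero, rot_one, rot_two, rot_three', Nat.zero_add, Nat.add_zero, Nat.reduceAdd,
      Nat.reduceMod, Prod.mk.injEq, Nat.zero_mod] <;> push_cast <;> constructor <;> ring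

theorem comp_lt (P Q : ℕ × ℤ × ℤ) : (comp P Q).1 < 4 := Nat.mod_lt _ (by norm_num)

theorem loc_cast (f : FD) (N : ℕ → ℤ) :
    loc f (fun a => (N a : ℝ)) = (((loc f N).1 : ℝ), ((loc f N).2 : ℝ)) := by
  unfold loc
  cases sgn f <;> simp

theorem app_cast (P : ℕ × ℤ × ℤ) (x : ℤ × ℤ) :
    app P (((x.1 : ℝ), (x.2 : ℝ)) : ℝ × ℝ) = (((app P x).1 : ℝ), ((app P x).2 : ℝ)) := by
  obtain ⟨r, u, v⟩ := P
  unfold app
  simp only
  rcases rot_cases r with rfl | rfl | rfl | ⟨n, rfl⟩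
  · simp only [rot_zero]; push_cast; rfl
  · simp only [rot_one]; push_cast; rfl
  · simp only [rot_two]; push_cast; rfl
  · simp only [rot_three]; push_cast; rfl

/-- the scaled type vector, in `ℝ` -/
def scr (t : TV) : ℕ → ℝ := fun a => (sc t a : ℝ)

theorem bump_cast (t : TV) (c : ℕ) (e : ℤ) :
    (fun a => ((bump (sc t) c e a : ℤ) : ℝ)) = shift (scr t) c e := by
  ext a
  unfold bump shift scr
  by_cases h : a = c
  · subst h; simp
  · have : Nat.beq a c = false := by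
      rw [← Bool.not_eq_true, Nat.beq_eq]; exact h
    simp [this, h]

theorem loc_bump (f : FD) (t : TV) (c : ℕ) (e : ℤ) :
    loc f (shift (scr t) c e) = (((loc f (bump (sc t) c e)).1 : ℝ), ((loc f (bump (sc t) c e)).2 : ℝ)) := by
  rw [← bump_cast, loc_cast]

theorem loc_scr (f : FD) (t : TV) :
    loc f (scr t) = (((loc f (sc t)).1 : ℝ), ((loc f (sc t)).2 : ℝ)) := by
  rw [← loc_cast]; rfl

theorem dc_pt (t : TV) : dc (pt t) = scr t := by
  obtain ⟨x, y, z⟩ := t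
  funext a
  rcases a with _ | _ | a
  · show 2 * ((((x : ℤ) - 7 : ℤ) : ℝ) / 2) = _
    simp only [scr, sc, get]; ring
  · show 2 * ((((y : ℤ) - 7 : ℤ) : ℝ) / 2) = _
    simp only [scr, sc, get]; ring
  · show 2 * ((((z : ℤ) - 7 : ℤ) : ℝ) / 2) = _
    simp only [scr, sc, get]; ring

theorem scr_setc {t : TV} {a : ℕ} (ha : a ≤ 2) (s : Bool) (h : 1 ≤ get t a) :
    scr (setc t a (bif s then get t a + 1 else get t a - 1)) =
      fun b => if min b 2 = a then scr t b + (bif s then 1 else -1) else scr t b := by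
  obtain ⟨x, y, z⟩ := t
  funext b
  interval_cases a <;> cases s <;> rcases b with _ | _ | b <;>
    simp [scr, sc, setc, get] at h ⊢ <;> (try (rw [Nat.cast_sub h]; push_cast)) <;> ring

theorem loc_congr {f : FD} {N N' : ℕ → ℝ} (h : ∀ a, a ≤ 2 → N a = N' a) : loc f N = loc f N' := by
  have h0 : o0 f.1 ≤ 2 := by unfold o0; split <;> norm_num
  have h1 : o1 f.1 ≤ 2 := by unfold o1; split <;> norm_num
  unfold loc
  rw [h _ h0, h _ h1]

theorem G_congr {P : ℕ × ℤ × ℤ} {f : FD} {N N' : ℕ → ℝ} (h : ∀ a, a ≤ 2 → N a = N' a) :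
    G P f N = G P f N' := by
  unfold G; rw [loc_congr h]

theorem G_setc (P : ℕ × ℤ × ℤ) (f : FD) {t : TV} {a : ℕ} (ha : a ≤ 2) (s : Bool) (h : 1 ≤ get t a) :
    G P f (dc (pt (setc t a (bif s then get t a + 1 else get t a - 1)))) =
      G P f (shift (scr t) a (bif s then 1 else -1)) := by
  apply G_congr
  intro b hb
  rw [dc_pt, scr_setc ha s h]
  unfold shift
  have : min b 2 = b := min_eq_left hb
  simp only [this]

/-- odd types determine the coordinates -/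
theorem dc_odd {p : E3} {a : ℕ} (h : get (tv p) a % 2 = 1) : dc p a = scr (tv p) a := by
  have key : ∀ x : ℝ, ty x % 2 = 1 → 2 * x = (((ty x : ℤ) - 7 : ℤ) : ℝ) := by
    intro x hx
    obtain ⟨n, hn, rfl, h3⟩ := ty_odd hx
    rw [h3]
    have : (((2 * n + 7).toNat : ℤ)) = 2 * n + 7 := Int.toNat_of_nonneg (by omega)
    rw [this]; push_cast; ring
  rcases a with _ | _ | a
  · exact key _ h
  · exact key _ h
  · exact key _ h

theorem R1 {X Y A B C : ℝ × ℝ} (hA : dsq Y A = dsq X A) (hB : dsq Y B = dsq X B) (hC : dsq Y C = dsq X C)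
    (h : (B.1 - A.1) * (C.2 - A.2) - (B.2 - A.2) * (C.1 - A.1) ≠ 0) : Y = X := by
  unfold dsq at *
  have e1 : (Y.1 - X.1) * (B.1 - A.1) + (Y.2 - X.2) * (B.2 - A.2) = 0 := by linear_combination (hA - hB) / 2
  have e2 : (Y.1 - X.1) * (C.1 - A.1) + (Y.2 - X.2) * (C.2 - A.2) = 0 := by linear_combination (hA - hC) / 2
  have a1 : (Y.1 - X.1) * ((B.1 - A.1) * (C.2 - A.2) - (B.2 - A.2) * (C.1 - A.1)) = 0 := by
    linear_combination (C.2 - A.2) * e1 - (B.2 - A.2) * e2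
  have a2 : (Y.2 - X.2) * ((B.1 - A.1) * (C.2 - A.2) - (B.2 - A.2) * (C.1 - A.1)) = 0 := by
    linear_combination -(C.1 - A.1) * e1 + (B.1 - A.1) * e2
  have b1 := (mul_eq_zero.1 a1).resolve_right h
  have b2 := (mul_eq_zero.1 a2).resolve_right h
  exact Prod.ext (by linarith) (by linarith)

theorem R2 {Y M n d : ℝ × ℝ} {α β : ℝ} (hαβ : α ≠ β) (hd : d.1 ^ 2 + d.2 ^ 2 = 1)
    (hn : n.1 ^ 2 + n.2 ^ 2 = 1) (hnd : n.1 * d.1 + n.2 * d.2 = 0)
    (hA : dsq Y (M.1 + α * d.1, M.2 + α * d.2) = dsq (M.1 + n.1, M.2 + n.2) (M.1 + α * d.1, M.2 + α * d.2))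
    (hB : dsq Y (M.1 + β * d.1, M.2 + β * d.2) = dsq (M.1 + n.1, M.2 + n.2) (M.1 + β * d.1, M.2 + β * d.2)) :
    Y = (M.1 + n.1, M.2 + n.2) ∨ Y = (M.1 - n.1, M.2 - n.2) := by
  unfold dsq at hA hB
  simp only at hA hB
  set y1 := Y.1 - M.1 with hy1
  set y2 := Y.2 - M.2 with hy2
  have e1 : (β - α) * (y1 * d.1 + y2 * d.2) = 0 := by
    rw [hy1, hy2]; linear_combination (hA - hB) / 2 + (β - α) * hnd
  have e2 : y1 * d.1 + y2 * d.2 = 0 := (mul_eq_zero.1 e1).resolve_left (sub_ne_zero.2 hαβ.symm)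
  have e3 : y1 ^ 2 + y2 ^ 2 = 1 := by
    rw [hy1, hy2] at e2 ⊢; linear_combination hA + hn + 2 * α * e2 - 2 * α * hnd
  have e4 : y1 * n.2 - y2 * n.1 = 0 := by
    have : (y1 * n.2 - y2 * n.1) * (d.1 ^ 2 + d.2 ^ 2) = 0 := by
      linear_combination (n.2 * d.1 - n.1 * d.2) * e2 + (-(y2 * d.1) + y1 * d.2) * hnd
    rw [hd, mul_one] at this
    exact this
  have e5 : (y1 * n.1 + y2 * n.2) ^ 2 = 1 := by
    linear_combination e3 * (n.1 ^ 2 + n.2 ^ 2) + hn - (y1 * n.2 - y2 * n.1) * e4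
  have e6 : y1 = (y1 * n.1 + y2 * n.2) * n.1 := by linear_combination -y1 * hn + n.2 * e4
  have e7 : y2 = (y1 * n.1 + y2 * n.2) * n.2 := by linear_combination -y2 * hn - n.1 * e4
  have e8 : (y1 * n.1 + y2 * n.2 - 1) * (y1 * n.1 + y2 * n.2 + 1) = 0 := by linear_combination e5
  rcases mul_eq_zero.1 e8 with h | h
  · left
    replace h : y1 * n.1 + y2 * n.2 = 1 := by linarith
    rw [h, one_mul] at e6 e7
    exact Prod.ext (by simp only; linarith) (by simp only; linarith)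
  · right
    replace h : y1 * n.1 + y2 * n.2 = -1 := by linarith
    rw [h] at e6 e7
    exact Prod.ext (by simp only; linarith) (by simp only; linarith)

end H407R3.Ortho
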