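import Pool.Agent.H407R3.Ortho.Place

set_option autoImplicit false

/-! The development across an edge is forced. -/

namespace H407R3.Ortho

open Metric Set

theorem dist_sq3 (p q : E3) : dist p q ^ 2 = (p 0 - q 0) ^ 2 + (p 1 - q 1) ^ 2 + (p 2 - q 2) ^ 2 := by
  rw [EuclideanSpace.dist_eq, Real.sq_sqrt (Finset.sum_nonneg fun _ _ => sq_nonneg _)]
  simp [Fin.sum_univ_three, Real.dist_eq, sq_abs]

theorem dist_sq2 (p q : E2) : dist p q ^ 2 = (p 0 - q 0) ^ 2 + (p 1 - q 1) ^ 2 := by
  rw [EuclideanSpace.dist_eq, Real.sq_sqrt (Finset.sum_nonneg fun _ _ => sq_nonneg _)]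
  simp [Fin.sum_univ_two, Real.dist_eq, sq_abs]

theorem CF_level {f : FD} {t : TV} (h : CF f t = true) : get t f.1 = f.2.2.1 := (CF_iff.1 h).1

theorem dc_level {f : FD} (hf : f ∈ faces) {p : E3} (h : p ∈ closure (FS f)) :
    dc p f.1 = (f.2.2.1 : ℝ) - 7 := by
  rw [closure_FS hf] at h
  have h1 : get (tv p) f.1 = f.2.2.1 := CF_level h
  rw [dc_odd (by rw [h1]; exact (face_data hf).2.1)]
  simp [scr, sc, h1]

/-- the development of a closed face in its own coordinates is isometric up to the factor `2` -/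
theorem dsq_G_dist {f : FD} (hf : f ∈ faces) (P : ℕ × ℤ × ℤ) {p q : E3} (hp : p ∈ closure (FS f))
    (hq : q ∈ closure (FS f)) : dsq (G P f (dc p)) (G P f (dc q)) = 4 * dist p q ^ 2 := by
  have h1 := dc_level hf hp
  have h2 := dc_level hf hq
  have h3 : dc p f.1 = dc q f.1 := by rw [h1, h2]
  have h0 := (face_data hf).1
  rw [dsq_G, dist_sq3]
  obtain ⟨a, s, l, R⟩ := f
  simp only at h0 h3 ⊢
  interval_cases a
  · simp only [o0, o1, dc] at h3 ⊢
    have : p 0 = q 0 := by linarith
    rw [this]; ring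
  · simp only [o0, o1, dc] at h3 ⊢
    have : p 1 = q 1 := by linarith
    rw [this]; ring
  · simp only [o0, o1, dc] at h3 ⊢
    have : p 2 = q 2 := by linarith
    rw [this]; ring

/-- orthonormal rows, hence columns -/
theorem ortho_cols {a b c d : ℝ} (h1 : a ^ 2 + b ^ 2 = 1) (h2 : c ^ 2 + d ^ 2 = 1) (h3 : a * c + b * d = 0) :
    a ^ 2 + c ^ 2 = 1 ∧ b ^ 2 + d ^ 2 = 1 ∧ a * b + c * d = 0 := by
  have e1 : c ^ 2 = b ^ 2 := by
    linear_combination (-(c ^ 2)) * h1 + b ^ 2 * h2 + (a * c - b * d) * h3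
  have e2 : d ^ 2 = a ^ 2 := by
    linear_combination (-(d ^ 2)) * h1 + a ^ 2 * h2 + (-(a * c) + b * d) * h3
  refine ⟨by linarith, by linarith, ?_⟩
  linear_combination (-(c * d)) * h1 + (-(a * b)) * h2 + (a * d + b * c) * h3

/-- coordinates of the plane of the development, normalised by face `17` -/
theorem frame {φ : E3 → E2} (hφ : ∀ x ∈ closure (FS (fd 17)), ∀ y ∈ closure (FS (fd 17)),
    dist (φ x) (φ y) = dist x y) :
    ∃ c : E2 → ℝ × ℝ, (∀ z w, dsq (c z) (c w) = 4 * dist z w ^ 2) ∧
      ∀ x ∈ closure (FS (fd 17)), c (φ x) = G (0, 0, 0) (fd 17) (dc x) := by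
  have h17 : fd 17 ∈ faces := by decide
  have mo : pt (7, 5, 3) ∈ closure (FS (fd 17)) := by
    rw [closure_FS h17]; show CF (fd 17) (tv (pt _)) = true; rw [tv_pt]; decide
  have mu : pt (9, 5, 3) ∈ closure (FS (fd 17)) := by
    rw [closure_FS h17]; show CF (fd 17) (tv (pt _)) = true; rw [tv_pt]; decide
  have mv : pt (7, 5, 5) ∈ closure (FS (fd 17)) := by
    rw [closure_FS h17]; show CF (fd 17) (tv (pt _)) = true; rw [tv_pt]; decide
  set o := pt (7, 5, 3) with ho
  set u := pt (9, 5, 3) with hu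
  set v := pt (7, 5, 5) with hv
  have o0' : o 0 = 0 := by simp [ho, pt]
  have o1' : o 1 = -1 := by simp [ho, pt]
  have o2' : o 2 = -2 := by simp [ho, pt]; norm_num
  have u0' : u 0 = 1 := by simp [hu, pt]
  have u1' : u 1 = -1 := by simp [hu, pt]
  have u2' : u 2 = -2 := by simp [hu, pt]; norm_num
  have v0' : v 0 = 0 := by simp [hv, pt]
  have v1' : v 1 = -1 := by simp [hv, pt]
  have v2' : v 2 = -1 := by simp [hv, pt]
  have d1 : dist (φ u) (φ o) ^ 2 = 1 := by
    rw [hφ u mu o mo, dist_sq3, u0', u1', u2', o0', o1', o2']; norm_num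
  have d2 : dist (φ v) (φ o) ^ 2 = 1 := by
    rw [hφ v mv o mo, dist_sq3, v0', v1', v2', o0', o1', o2']; norm_num
  have d3 : dist (φ u) (φ v) ^ 2 = 2 := by
    rw [hφ u mu v mv, dist_sq3, v0', v1', v2', u0', u1', u2']; norm_num
  rw [dist_sq2] at d1 d2 d3
  set O := φ o
  set U := φ u
  set V := φ v
  have d4 : (U 0 - O 0) * (V 0 - O 0) + (U 1 - O 1) * (V 1 - O 1) = 0 := by
    linear_combination (d1 + d2 - d3) / 2
  obtain ⟨c1, c2, c3⟩ := ortho_cols d1 d2 d4
  refine ⟨fun z => (2 * ((z 0 - O 0) * (U 0 - O 0) + (z 1 - O 1) * (U 1 - O 1)),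
    4 - 2 * ((z 0 - O 0) * (V 0 - O 0) + (z 1 - O 1) * (V 1 - O 1))), ?_, ?_⟩
  · intro z w
    rw [dist_sq2]
    unfold dsq
    simp only
    linear_combination 4 * (z 0 - w 0) ^ 2 * c1 + 4 * (z 1 - w 1) ^ 2 * c2 +
      8 * (z 0 - w 0) * (z 1 - w 1) * c3
  · intro x hx
    have hx1 : x 1 = -1 := by
      have := dc_level h17 hx
      have e : dc x (fd 17).1 = 2 * x 1 := rfl
      rw [e] at this
      have e2 : (fd 17).2.2.1 = 5 := rfl
      rw [e2] at this
      norm_num at this
      linarith
    have a1 : dist (φ x) O ^ 2 = dist x o ^ 2 := by rw [hφ x hx o mo]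
    have a2 : dist (φ x) U ^ 2 = dist x u ^ 2 := by rw [hφ x hx u mu]
    have a3 : dist (φ x) V ^ 2 = dist x v ^ 2 := by rw [hφ x hx v mv]
    rw [dist_sq2, dist_sq3, o0', o1', o2', hx1] at a1
    rw [dist_sq2, dist_sq3, u0', u1', u2', hx1] at a2
    rw [dist_sq2, dist_sq3, v0', v1', v2', hx1] at a3
    have g : G (0, 0, 0) (fd 17) (dc x) = (2 * x 0, -(2 * x 2)) := by
      unfold G app loc
      have e1 : (fd 17).1 = 1 := rfl
      have e2 : sgn (fd 17) = false := rfl
      simp only [e1, e2, o0, o1, dc, cond_false, rot_zero, Int.cast_zero, add_zero]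
    rw [g]
    refine Prod.ext ?_ ?_
    · show 2 * _ = 2 * x 0
      linear_combination a1 - a2 + d1
    · show 4 - 2 * _ = _
      linear_combination -a1 + a3 - d2

/-- crossing an edge -/
theorem step {f g : FD} (hf : f ∈ faces) (hg : g ∈ faces) {P T : ℕ × ℤ × ℤ} (hP : P.1 < 4)
    (hT : T.1 < 4) {c : E2 → ℝ × ℝ} (hc : ∀ z w, dsq (c z) (c w) = 4 * dist z w ^ 2) {φf φg : E3 → E2}
    (hφg : ∀ x ∈ closure (FS g), ∀ y ∈ closure (FS g), dist (φg x) (φg y) = dist x y)
    (hdisj : Disjoint (φf '' FS f) (φg '' FS g))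
    (hpl : ∀ x ∈ closure (FS f), c (φf x) = G P f (dc x)) {t : TV} {e : ℕ} (he : e ≤ 2)
    (hcond : cond f g T t e = true) {z z' : E3} (hz : tv z = t) (hz' : tv z' = t) (hne : z ≠ z')
    (hev : get t e % 2 = 0)
    (hodd : ∀ a, a ≤ 2 → a ≠ e → get t a % 2 = 1) (hCf : CF f t = true) (hCg : CF g t = true)
    (h1 : φf z = φg z) (h2 : φf z' = φg z') :
    ∀ x ∈ closure (FS g), c (φg x) = G (comp P T) g (dc x) := by
  simp only [cond, Bool.and_eq_true, beq_iff_eq, List.any_eq_true, List.mem_range,
    Bool.not_eq_true'] at hcond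
  obtain ⟨⟨hc0, hc1⟩, a, ha3, s, -, a', ha'3, s', -, hae0, hTg, hTf, hrefl⟩ := hcond
  have hae : a ≠ e := by
    intro h
    rw [← Nat.beq_eq, hae0] at h
    exact Bool.false_ne_true h
  have ha : a ≤ 2 := by omega
  have ha' : a' ≤ 2 := by omega
  have hgl : get t g.1 = g.2.2.1 := CF_level hCg
  have hgodd : get t g.1 % 2 = 1 := by rw [hgl]; exact (face_data hg).2.1
  have hfl : get t f.1 = f.2.2.1 := CF_level hCf
  have hfodd : get t f.1 % 2 = 1 := by rw [hfl]; exact (face_data hf).2.1
  have hg2 := (face_data hg).1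
  have heg : e ≠ g.1 := by rintro rfl; omega
  have hao : get t a % 2 = 1 := hodd a ha hae
  have ha1 : 1 ≤ get t a := by omega
  have get_setc : ∀ (b v : ℕ), b ≤ 2 → get (setc t b v) b = v := by
    intro b v hb
    interval_cases b <;> rfl
  have hag : a ≠ g.1 := by
    intro h
    have e1 : get (setc t a (bif s then get t a + 1 else get t a - 1)) g.1 = g.2.2.1 := (TF_iff.1 hTg).1
    rw [← h, get_setc _ _ ha] at e1
    rw [← h] at hgl
    rw [hgl] at e1
    cases s
    · simp only [cond_false] at e1; omega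
    · simp only [cond_true] at e1; omega
  have haf : a' ≠ f.1 := by
    intro h
    have e1 : get (setc t a' (bif s' then get t a' + 1 else get t a' - 1)) f.1 = f.2.2.1 := (TF_iff.1 hTf).1
    rw [← h, get_setc _ _ ha'] at e1
    rw [← h] at hfl
    rw [hfl] at e1
    have := (face_data hf).2.1
    cases s'
    · simp only [cond_false] at e1; omega
    · simp only [cond_true] at e1; omega
  -- the two axes of `g` are `e` and `a`
  have hax : (o0 g.1 = e ∧ o1 g.1 = a) ∨ (o0 g.1 = a ∧ o1 g.1 = e) := by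
    generalize g.1 = k at *
    interval_cases k <;> interval_cases e <;> interval_cases a <;> simp [o0, o1] at *
  set Q := comp P T with hQ
  have hGQ : ∀ N : ℕ → ℝ, G Q g N = app P (app T (loc g N)) := fun N => app_comp hP hT _
  -- real versions of the conditions
  have r0 : loc f (scr t) = app T (loc g (scr t)) := by
    rw [loc_scr, loc_scr, app_cast, ← hc0]
  have r1 : loc f (shift (scr t) e 1) = app T (loc g (shift (scr t) e 1)) := by
    have : ((1 : ℤ) : ℝ) = 1 := by norm_num
    rw [← this, loc_bump, loc_bump, app_cast, ← hc1]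
  have r2 : app T (loc g (shift (scr t) a (bif s then -1 else 1))) =
      loc f (shift (scr t) a' (bif s' then 1 else -1)) := by
    have e1 : (bif s then (-1 : ℝ) else 1) = (((bif s then (-1 : ℤ) else 1) : ℤ) : ℝ) := by
      cases s <;> simp
    have e2 : (bif s' then (1 : ℝ) else -1) = (((bif s' then (1 : ℤ) else -1) : ℤ) : ℝ) := by
      cases s' <;> simp
    rw [e1, e2, loc_bump, loc_bump, app_cast, hrefl]
  -- points of the edge
  have onEdge : ∀ w : E3, tv w = t → dc w = fun b => if min b 2 = e then dc w b else scr t b := by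
    intro w hw
    funext b
    by_cases hb : min b 2 = e
    · rw [if_pos hb]
    · rw [if_neg hb]
      have : dc w b = dc w (min b 2) := by
        rcases b with _ | _ | _ | b <;> simp [dc]
      have h3 : scr t b = scr t (min b 2) := by
        rcases b with _ | _ | _ | b <;> simp [scr, sc, get]
      rw [this, h3]
      have h4 := hodd (min b 2) (min_le_right _ _) hb
      rw [← hw] at h4 ⊢
      exact dc_odd h4
  have edgeShift : ∀ w : E3, tv w = t → ∀ (R : ℕ × ℤ × ℤ) (k : FD), 
      G R k (dc w) = G R k (shift (scr t) e (dc w e - scr t e)) := by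
    intro w hw R k
    apply G_congr
    intro b hb
    rw [onEdge w hw]
    have : min b 2 = b := min_eq_left hb
    have h3 : min e 2 = e := min_eq_left he
    simp only [this, h3, if_true, shift]
    by_cases hbe : b = e
    · subst hbe; simp
    · simp [hbe]
  have edgeEq : ∀ w : E3, tv w = t → G P f (dc w) = G Q g (dc w) := by
    intro w hw
    rw [edgeShift w hw, edgeShift w hw]
    have q0 : G P f (scr t) = G Q g (scr t) := by rw [hGQ, ← r0]; rfl
    have q1 : G P f (shift (scr t) e 1) = G Q g (shift (scr t) e 1) := by rw [hGQ, ← r1]; rfl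
    rw [G_shift P f (scr t) e (dc w e - scr t e), G_shift Q g (scr t) e (dc w e - scr t e), q0, q1]
  have memf : ∀ w : E3, tv w = t → w ∈ closure (FS f) := by
    intro w hw; rw [closure_FS hf]; show CF f (tv w) = true; rw [hw]; exact hCf
  have memg : ∀ w : E3, tv w = t → w ∈ closure (FS g) := by
    intro w hw; rw [closure_FS hg]; show CF g (tv w) = true; rw [hw]; exact hCg
  have hz1 : c (φg z) = G Q g (dc z) := by rw [← h1, hpl z (memf z hz), edgeEq z hz]
  have hz2 : c (φg z') = G Q g (dc z') := by rw [← h2, hpl z' (memf z' hz'), edgeEq z' hz']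
  -- the frame
  set M := G Q g (scr t) with hM
  set d : ℝ × ℝ := ((G Q g (shift (scr t) e 1)).1 - M.1, (G Q g (shift (scr t) e 1)).2 - M.2) with hd
  set σ : ℝ := bif s then 1 else -1 with hσ
  have hσ2 : σ ^ 2 = 1 := by rw [hσ]; cases s <;> norm_num
  set n : ℝ × ℝ := ((G Q g (shift (scr t) a σ)).1 - M.1, (G Q g (shift (scr t) a σ)).2 - M.2) with hn
  have shift_same : ∀ (k : ℕ) (l : ℝ), shift (scr t) k l k = scr t k + l := by intro k l; simp [shift]
  have shift_ne : ∀ (k m : ℕ) (l : ℝ), m ≠ k → shift (scr t) k l m = scr t m := by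
    intro k m l h; simp [shift, h]
  have nd : d.1 ^ 2 + d.2 ^ 2 = 1 := by
    have := dsq_G Q g (shift (scr t) e 1) (scr t)
    unfold dsq at this
    rw [hd]; simp only
    rw [this]
    rcases hax with ⟨x1, x2⟩ | ⟨x1, x2⟩
    · rw [x1, x2, shift_same, shift_ne e a 1 hae]; ring
    · rw [x1, x2, shift_same, shift_ne e a 1 hae]; ring
  have nn : n.1 ^ 2 + n.2 ^ 2 = 1 := by
    have := dsq_G Q g (shift (scr t) a σ) (scr t)
    unfold dsq at this
    rw [hn]; simp only
    rw [this]
    rcases hax with ⟨x1, x2⟩ | ⟨x1, x2⟩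
    · rw [x1, x2, shift_same, shift_ne a e σ (Ne.symm hae)]; linear_combination hσ2
    · rw [x1, x2, shift_same, shift_ne a e σ (Ne.symm hae)]; linear_combination hσ2
  have ndn : n.1 * d.1 + n.2 * d.2 = 0 := by
    have := dsq_G Q g (shift (scr t) a σ) (shift (scr t) e 1)
    unfold dsq at this
    have t2 : (n.1 - d.1) ^ 2 + (n.2 - d.2) ^ 2 = 2 := by
      rw [hn, hd]; simp only
      have e1 : ∀ x y m : ℝ, x - m - (y - m) = x - y := fun x y m => by ring
      rw [e1, e1, this]
      rcases hax with ⟨x1, x2⟩ | ⟨x1, x2⟩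
      · rw [x1, x2, shift_same, shift_same, shift_ne a e σ (Ne.symm hae), shift_ne e a 1 hae]
        linear_combination hσ2
      · rw [x1, x2, shift_same, shift_same, shift_ne a e σ (Ne.symm hae), shift_ne e a 1 hae]
        linear_combination hσ2
    linear_combination (nd + nn - t2) / 2
  have edgeM : ∀ w : E3, tv w = t → G Q g (dc w) =
      (M.1 + (dc w e - scr t e) * d.1, M.2 + (dc w e - scr t e) * d.2) := by
    intro w hw
    rw [edgeShift w hw, G_shift]
  have hαβ : dc z e - scr t e ≠ dc z' e - scr t e := by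
    intro h
    apply hne
    have h3 : dc z e = dc z' e := by linarith
    have h4 : ∀ b, dc z b = dc z' b := by
      intro b
      rw [onEdge z hz, onEdge z' hz']
      by_cases hb : min b 2 = e
      · simp only [hb, if_true]
        have : ∀ w : E3, dc w b = dc w (min b 2) := by
          intro w; rcases b with _ | _ | _ | b <;> simp [dc]
        rw [this z, this z', hb, h3]
      · simp only [hb, if_false]
    ext i
    fin_cases i
    · have := h4 0; simp only [dc] at this; show z 0 = z' 0; linarith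
    · have := h4 1; simp only [dc] at this; show z 1 = z' 1; linarith
    · have := h4 2; simp only [dc] at this; show z 2 = z' 2; linarith
  -- a point of `g` near the edge
  set w0 := pt (setc t a (bif s then get t a + 1 else get t a - 1)) with hw0
  have w0g : w0 ∈ FS g := by show TF g (tv w0) = true; rw [hw0, tv_pt]; exact hTg
  have w0c : w0 ∈ closure (FS g) := subset_closure w0g
  have Gw0 : G Q g (dc w0) = (M.1 + n.1, M.2 + n.2) := by
    rw [hw0, G_setc Q g ha s ha1]
    refine Prod.ext ?_ ?_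
    · show _ = M.1 + ((G Q g (shift (scr t) a σ)).1 - M.1); ring
    · show _ = M.2 + ((G Q g (shift (scr t) a σ)).2 - M.2); ring
  have isoG : ∀ x ∈ closure (FS g), ∀ y ∈ closure (FS g), dsq (c (φg x)) (c (φg y)) =
      dsq (G Q g (dc x)) (G Q g (dc y)) := by
    intro x hx y hy
    rw [hc, hφg x hx y hy, dsq_G_dist hg Q hx hy]
  have alt : c (φg w0) = (M.1 + n.1, M.2 + n.2) ∨ c (φg w0) = (M.1 - n.1, M.2 - n.2) := by
    refine R2 hαβ nd nn ndn ?_ ?_
    · have := isoG w0 w0c z (memg z hz)
      rw [hz1, edgeM z hz, Gw0] at this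
      exact this
    · have := isoG w0 w0c z' (memg z' hz')
      rw [hz2, edgeM z' hz', Gw0] at this
      exact this
  rcases alt with alt | alt
  · intro x hx
    refine R1 (A := G Q g (dc z)) (B := G Q g (dc z')) (C := G Q g (dc w0)) ?_ ?_ ?_ ?_
    · rw [← hz1, isoG x hx z (memg z hz), hz1]
    · rw [← hz2, isoG x hx z' (memg z' hz'), hz2]
    · have := isoG x hx w0 w0c
      rw [alt, ← Gw0] at this
      exact this
    · rw [edgeM z hz, edgeM z' hz', Gw0]
      simp only
      intro h0
      have cr : (d.1 * n.2 - d.2 * n.1) ^ 2 = 1 := by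
        linear_combination (d.1 ^ 2 + d.2 ^ 2) * nn + nd - (n.1 * d.1 + n.2 * d.2) * ndn
      have h5 : ((dc z' e - scr t e) - (dc z e - scr t e)) * (d.1 * n.2 - d.2 * n.1) = 0 := by
        linear_combination h0
      rcases mul_eq_zero.1 h5 with h6 | h6
      · exact hαβ (by linarith)
      · rw [h6] at cr; norm_num at cr
  · exfalso
    set w1 := pt (setc t a' (bif s' then get t a' + 1 else get t a' - 1)) with hw1
    have w1f : w1 ∈ FS f := by show TF f (tv w1) = true; rw [hw1, tv_pt]; exact hTf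
    have ha'1 : 1 ≤ get t a' := by
      by_contra h0
      have h00 : get t a' = 0 := by omega
      have hae' : a' = e := by
        by_contra hh
        have := hodd a' ha' hh
        omega
      -- then the face `f` would contain a type `0` or `1` in a free direction
      have hb := TF_iff.1 hTf
      obtain ⟨hb1, r, hr, hb2, hb3⟩ := hb
      obtain ⟨-, -, -, h4⟩ := face_data hf
      obtain ⟨-, -, p1, p2, p3, p4, p5, p6⟩ := h4 r hr
      have hCf' := CF_iff.1 hCf
      obtain ⟨-, r', hr', hb2', hb3'⟩ := hCf'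
      obtain ⟨-, -, p1', p2', p3', p4', p5', p6'⟩ := h4 r' hr'
      have hf2 := (face_data hf).1
      have : a' = o0 f.1 ∨ a' = o1 f.1 := by
        generalize f.1 = k at *
        interval_cases k <;> interval_cases a' <;> simp [o0, o1] at *
      rcases this with h7 | h7
      · rw [← h7, h00] at hb2'; omega
      · rw [← h7, h00] at hb3'; omega
    have Gw1 : c (φf w1) = (M.1 - n.1, M.2 - n.2) := by
      rw [hpl w1 (subset_closure w1f), hw1, G_setc P f ha' s' ha'1]
      show app P (loc f _) = _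
      rw [← r2, ← hGQ]
      have e1 : (bif s then (-1 : ℝ) else 1) = -σ := by rw [hσ]; cases s <;> simp
      rw [e1, G_shift]
      have e2 := G_shift Q g (scr t) a σ
      rw [← hM] at e2 ⊢
      have e3 : n.1 = σ * ((G Q g (shift (scr t) a 1)).1 - M.1) := by
        rw [hn, e2]; simp only; ring
      have e4 : n.2 = σ * ((G Q g (shift (scr t) a 1)).2 - M.2) := by
        rw [hn, e2]; simp only; ring
      rw [e3, e4]
      refine Prod.ext ?_ ?_ <;> simp only <;> ring
    have : φf w1 = φg w0 := by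
      have := hc (φf w1) (φg w0)
      rw [Gw1, alt] at this
      have h8 : dist (φf w1) (φg w0) ^ 2 = 0 := by
        have : dsq (M.1 - n.1, M.2 - n.2) (M.1 - n.1, M.2 - n.2) = 0 := by unfold dsq; ring
        linarith
      exact dist_eq_zero.1 (by simpa using h8)
    exact Set.disjoint_left.1 hdisj ⟨w1, w1f, rfl⟩ ⟨w0, w0g, this.symm⟩

end H407R3.Ortho
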