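import Mathlib

set_option autoImplicit false

/-! Combinatorial type of a real number relative to the integers: `ty x` is odd when `x ≥ -3` is an integer
and even when `x` lies in an open unit interval (or `x < -3`, where `ty x = 0`). -/

namespace H407R3.Ortho

/-- the type of a real number -/
noncomputable def ty (x : ℝ) : ℕ := (⌊x⌋ + ⌈x⌉ + 7).toNat

/-- types occurring near a point of type `t` -/
def nb1 (t : ℕ) : List ℕ := if t % 2 = 0 then [t] else [t - 1, t, t + 1]

theorem ty_mono : Monotone ty := by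
  intro x y h
  unfold ty
  have h1 := Int.floor_mono h
  have h2 := Int.ceil_mono h
  omega

theorem le_ty {n : ℤ} (hn : -3 ≤ n) {x : ℝ} : (2 * n + 7).toNat ≤ ty x ↔ (n : ℝ) ≤ x := by
  unfold ty
  constructor
  · intro h
    by_contra hx
    push Not at hx
    have h1 : ⌊x⌋ < n := Int.floor_lt.2 hx
    have h2 : ⌈x⌉ ≤ n := Int.ceil_le.2 hx.le
    omega
  · intro h
    have h1 : n ≤ ⌊x⌋ := Int.le_floor.2 h
    have h2 : n ≤ ⌈x⌉ := by
      have : (n : ℝ) ≤ ⌈x⌉ := h.trans (Int.le_ceil x)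
      exact_mod_cast this
    omega

theorem ty_le {n : ℤ} (hn : -3 ≤ n) {x : ℝ} : ty x ≤ (2 * n + 7).toNat ↔ x ≤ n := by
  unfold ty
  constructor
  · intro h
    by_contra hx
    push Not at hx
    have h1 : n ≤ ⌊x⌋ := Int.le_floor.2 hx.le
    have h2 : n < ⌈x⌉ := Int.lt_ceil.2 hx
    omega
  · intro h
    have h1 : ⌊x⌋ ≤ n := by
      have : (⌊x⌋ : ℝ) ≤ n := (Int.floor_le x).trans h
      exact_mod_cast this
    have h2 : ⌈x⌉ ≤ n := Int.ceil_le.2 h
    omega

theorem ty_int (n : ℤ) : ty n = (2 * n + 7).toNat := by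
  unfold ty
  rw [Int.floor_intCast, Int.ceil_intCast]
  congr 1; ring

theorem ty_half (n : ℤ) : ty ((n : ℝ) / 2) = (n + 7).toNat := by
  unfold ty
  rcases Int.even_or_odd' n with ⟨k, rfl | rfl⟩
  · have : (((2 * k : ℤ) : ℝ)) / 2 = (k : ℝ) := by push_cast; ring
    rw [this, Int.floor_intCast, Int.ceil_intCast]
    congr 1; ring
  · have h1 : ⌊(((2 * k + 1 : ℤ) : ℝ)) / 2⌋ = k := by
      rw [Int.floor_eq_iff]; push_cast; constructor <;> linarith
    have h2 : ⌈(((2 * k + 1 : ℤ) : ℝ)) / 2⌉ = k + 1 := by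
      rw [Int.ceil_eq_iff]; push_cast; constructor <;> linarith
    rw [h1, h2]
    congr 1; ring

/-- odd type: an integer point -/
theorem ty_odd {x : ℝ} (h : ty x % 2 = 1) : ∃ n : ℤ, -3 ≤ n ∧ x = n ∧ ty x = (2 * n + 7).toNat := by
  unfold ty at h
  have h1 := Int.ceil_le_floor_add_one x
  have h2 := Int.floor_le_ceil x
  have h3 : ⌈x⌉ = ⌊x⌋ := by omega
  have hx : x = ⌊x⌋ := le_antisymm (by rw [← h3]; exact Int.le_ceil x) (Int.floor_le x)
  refine ⟨⌊x⌋, by omega, hx, ?_⟩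
  unfold ty
  rw [h3]
  congr 1; ring

/-- even type: either left of `-3` or in an open unit interval -/
theorem ty_even {x : ℝ} (h : ty x % 2 = 0) :
    x < -3 ∨ ∃ n : ℤ, -3 ≤ n ∧ (n : ℝ) < x ∧ x < n + 1 ∧ ty x = (2 * n + 8).toNat := by
  by_cases hx : x < -3
  · exact Or.inl hx
  right
  push Not at hx
  have h0 : (-3 : ℤ) ≤ ⌊x⌋ := Int.le_floor.2 (by push_cast; exact hx)
  have h1 := Int.ceil_le_floor_add_one x
  have h2 := Int.floor_le_ceil x
  unfold ty at h
  have h3 : ⌈x⌉ = ⌊x⌋ + 1 := by omega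
  refine ⟨⌊x⌋, h0, lt_of_le_of_ne (Int.floor_le x) ?_, Int.lt_floor_add_one x, ?_⟩
  · intro he
    have : ⌈x⌉ = ⌊x⌋ := by
      have h4 : ⌈((⌊x⌋ : ℤ) : ℝ)⌉ = ⌊x⌋ := Int.ceil_intCast _
      rw [he] at h4; exact h4
    omega
  · unfold ty
    rw [h3]
    congr 1; ring

theorem ty_of_lt {x : ℝ} (h : x < -3) : ty x = 0 := by
  have : ty x ≤ 1 := by
    have := (ty_le (n := -3) (by norm_num) (x := x)).2 (by push_cast; exact h.le)
    simpa using this
  have h2 : ¬ 1 ≤ ty x := by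
    intro h3
    have := (le_ty (n := -3) (by norm_num) (x := x)).1 (by simpa using h3)
    push_cast at this
    linarith
  omega

theorem ty_of_Ioo {x : ℝ} {n : ℤ} (_hn : -3 ≤ n) (h1 : (n : ℝ) < x) (h2 : x < n + 1) :
    ty x = (2 * n + 8).toNat := by
  have f : ⌊x⌋ = n := by rw [Int.floor_eq_iff]; exact ⟨h1.le, h2⟩
  have c : ⌈x⌉ = n + 1 := by rw [Int.ceil_eq_iff]; push_cast; constructor <;> linarith
  unfold ty
  rw [f, c]; congr 1; ring

theorem ty_near (x : ℝ) : ∃ r > 0, ∀ y, |y - x| < r → ty y ∈ nb1 (ty x) := by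
  rcases Nat.mod_two_eq_zero_or_one (ty x) with h | h
  · unfold nb1
    rw [if_pos h]
    rcases ty_even h with hx | ⟨n, hn, h1, h2, h3⟩
    · refine ⟨-3 - x, by linarith, fun y hy => ?_⟩
      rw [abs_lt] at hy
      rw [ty_of_lt hx, ty_of_lt (show y < -3 by linarith)]; simp
    · refine ⟨min (x - n) (n + 1 - x), lt_min (by linarith) (by linarith), fun y hy => ?_⟩
      rw [abs_lt] at hy
      have a1 := min_le_left (x - n) (n + 1 - x)
      have a2 := min_le_right (x - n) (n + 1 - x)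
      rw [h3, ty_of_Ioo hn (by linarith) (by linarith)]; simp
  · obtain ⟨n, hn, rfl, h3⟩ := ty_odd h
    unfold nb1
    rw [if_neg (by omega), h3]
    refine ⟨1, one_pos, fun y hy => ?_⟩
    rw [abs_lt] at hy
    rcases lt_trichotomy y n with hyn | rfl | hyn
    · rcases eq_or_lt_of_le hn with rfl | hn'
      · rw [ty_of_lt (by push_cast at hyn; exact hyn)]; simp
      · rw [ty_of_Ioo (n := n - 1) (by omega) (by push_cast; linarith) (by push_cast; linarith)]
        simp only [List.mem_cons]; left; omega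
    · rw [h3]; simp
    · rw [ty_of_Ioo (n := n) hn hyn (by linarith)]
      simp only [List.mem_cons]; right; right; left; omega

theorem ty_approx {x : ℝ} {t : ℕ} (ht : t ∈ nb1 (ty x)) {r : ℝ} (hr : 0 < r) :
    ∃ y, |y - x| < r ∧ ty y = t := by
  rcases Nat.mod_two_eq_zero_or_one (ty x) with h | h
  · unfold nb1 at ht
    rw [if_pos h] at ht
    simp only [List.mem_singleton] at ht
    exact ⟨x, by simpa using hr, ht.symm⟩
  · obtain ⟨n, hn, rfl, h3⟩ := ty_odd h
    unfold nb1 at ht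
    rw [if_neg (by omega), h3] at ht
    simp only [List.mem_cons, List.not_mem_nil, or_false] at ht
    set δ := min (r / 2) (1 / 2) with hδ
    have d0 : 0 < δ := by rw [hδ]; positivity
    have d1 : δ ≤ r / 2 := min_le_left _ _
    have d2 : δ ≤ 1 / 2 := min_le_right _ _
    rcases ht with rfl | rfl | rfl
    · refine ⟨n - δ, by rw [sub_sub_cancel_left, abs_neg, abs_of_pos d0]; linarith, ?_⟩
      rcases eq_or_lt_of_le hn with rfl | hn'
      · rw [ty_of_lt (by push_cast; linarith)]; simp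
      · rw [ty_of_Ioo (n := n - 1) (by omega) (by push_cast; linarith) (by push_cast; linarith)]
        omega
    · exact ⟨n, by simpa using hr, h3⟩
    · refine ⟨n + δ, by rw [add_sub_cancel_left, abs_of_pos d0]; linarith, ?_⟩
      rw [ty_of_Ioo (n := n) hn (by linarith) (by linarith)]; omega

theorem ty_le_iff {x y : ℝ} (h : ty x % 2 = 1) : ty y ≤ ty x ↔ y ≤ x := by
  obtain ⟨n, hn, rfl, h3⟩ := ty_odd h
  rw [h3, ty_le hn]

theorem le_ty_iff {x y : ℝ} (h : ty x % 2 = 1) : ty x ≤ ty y ↔ x ≤ y := by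
  obtain ⟨n, hn, rfl, h3⟩ := ty_odd h
  rw [h3, le_ty hn]

end H407R3.Ortho
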