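import Pool.Agent.H407R3.Ortho.Step

set_option autoImplicit false
set_option maxRecDepth 100000

/-! No edge unfolding. -/

namespace H407R3.Ortho

open Metric Set

theorem fd_mem {i : ℕ} (h : i < 20) : fd i ∈ faces := by
  have h' : i < faces.length := h
  rw [fd, List.getD_eq_getElem _ _ h']
  exact List.getElem_mem _

theorem fd_inj_check : ((List.range 20).all fun i => (List.range 20).all fun j =>
    Nat.beq i j || !(fd i == fd j)) = true := by decide +kernel

theorem fd_inj {i j : ℕ} (hi : i < 20) (hj : j < 20) (h : fd i = fd j) : i = j := by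
  have := fd_inj_check
  simp only [List.all_eq_true, List.mem_range, Bool.or_eq_true, Nat.beq_eq] at this
  rcases this i hi j hj with h1 | h1
  · exact h1
  · simp [h] at h1

theorem mem_fd {f : FD} (h : f ∈ faces) : ∃ i < 20, f = fd i := by
  obtain ⟨i, hi, rfl⟩ := List.mem_iff_getElem.1 h
  refine ⟨i, hi, ?_⟩
  rw [fd, List.getD_eq_getElem _ _ hi]

theorem mem_evens {t : TV} {i : ℕ} : i ∈ evens t ↔ i < 3 ∧ get t i % 2 = 0 := by
  simp [evens, List.mem_filter, Nat.beq_eq]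

/-- consequences of the check `K3` -/
theorem k3_spec {j k : ℕ} (hj : j ∈ bumpIx) (hk : k < 20) (hjk : j ≠ k) {t : TV}
    (h1 : CF (fd j) t = true) (h2 : CF (fd k) t = true) {i : ℕ} (hi : i ∈ evens t) :
    evens t = [i] ∧ ∃ e ∈ nbr j, e.1 = k ∧ cond (fd j) (fd k) e.2 t i = true := by
  have hj20 : j < 20 := by
    have : ∀ j ∈ bumpIx, j < 20 := by decide
    exact this j hj
  obtain ⟨b1, b2, b3⟩ := CF_bound (fd_mem hj20) h1
  have K := allT_spec K3 b1 b2 b3
  have hne : evens t ≠ [] := List.ne_nil_of_mem hi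
  simp only [k3, Bool.or_eq_true, beq_iff_eq, hne, false_or, List.all_eq_true, List.mem_range] at K
  have K1' := K j hj20
  simp only [h1, Bool.not_true, Bool.false_eq_true, false_or] at K1'
  have K2' := K1' k hk
  have hjk' : ¬ (Nat.beq j k = true) := by rw [Nat.beq_eq]; exact hjk
  simp only [hjk', h2, Bool.not_true, Bool.false_eq_true, false_or, Bool.and_eq_true, Nat.beq_eq] at K2'
  obtain ⟨hl, K3'⟩ := K2'
  have hel : bumpIx.elem j = true := List.elem_eq_true_of_mem hj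
  simp only [hel, Bool.not_true, Bool.false_eq_true, false_or, Bool.or_eq_true, List.any_eq_true,
    Bool.and_eq_true, Nat.beq_eq] at K3'
  have hev : evens t = [i] := by
    obtain ⟨a, ha⟩ := List.length_eq_one_iff.1 hl
    rw [ha] at hi ⊢
    simp only [List.mem_singleton] at hi
    rw [hi]
  refine ⟨hev, ?_⟩
  obtain ⟨e, he, hek, hc⟩ := K3'
  rw [hev] at hc
  exact ⟨e, he, hek, hc⟩

/-- two points of a segment inside a common unit edge -/
theorem seg_points {x y : E3} (hxy : x ≠ y) : ∃ (z : E3) (i : Fin 3), z ∈ segment ℝ x y ∧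
    ty (z i) % 2 = 0 ∧ ∀ r > 0, ∃ z' ∈ segment ℝ x y, z' ≠ z ∧ dist z' z < r := by
  have : ∃ i, x i ≠ y i := by
    by_contra h
    push Not at h
    exact hxy (PiLp.ext h)
  obtain ⟨i, hi⟩ := this
  have key : ∃ v : ℝ, Irrational v ∧ min (x i) (y i) < v ∧ v < max (x i) (y i) :=
    exists_irrational_btwn (by
      rcases lt_or_gt_of_ne hi with h | h
      · rw [min_eq_left h.le, max_eq_right h.le]; exact h
      · rw [min_eq_right h.le, max_eq_left h.le]; exact h)
  obtain ⟨v, hv, h1, h2⟩ := key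
  set s := (v - x i) / (y i - x i) with hs
  have hne : y i - x i ≠ 0 := sub_ne_zero.2 hi.symm
  have hs0 : 0 < s ∧ s < 1 := by
    rcases lt_or_gt_of_ne hi with h | h
    · rw [min_eq_left h.le] at h1
      rw [max_eq_right h.le] at h2
      have : 0 < y i - x i := by linarith
      constructor
      · rw [hs]; exact div_pos (by linarith) this
      · rw [hs, div_lt_one this]; linarith
    · rw [min_eq_right h.le] at h1
      rw [max_eq_left h.le] at h2
      have : y i - x i < 0 := by linarith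
      constructor
      · rw [hs]; exact div_pos_of_neg_of_neg (by linarith) this
      · rw [hs, div_lt_one_of_neg this]; linarith
  have hsv : s * (y i - x i) = v - x i := by rw [hs]; field_simp
  refine ⟨x + s • (y - x), i, ?_, ?_, ?_⟩
  · rw [segment_eq_image']
    exact ⟨s, ⟨hs0.1.le, hs0.2.le⟩, rfl⟩
  · have e : (x + s • (y - x)) i = v := by
      simp only [PiLp.add_apply, PiLp.smul_apply, PiLp.sub_apply, smul_eq_mul]
      rw [hsv]; ring
    rw [e]
    by_contra h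
    obtain ⟨n, -, hn, -⟩ := ty_odd (x := v) (by omega)
    exact hv ⟨n, by rw [hn]; push_cast; rfl⟩
  · intro r hr
    have hd : 0 < ‖y - x‖ := norm_pos_iff.2 (sub_ne_zero.2 (Ne.symm hxy))
    set δ := min (1 - s) (r / (2 * ‖y - x‖)) with hδ
    have d0 : 0 < δ := lt_min (by linarith [hs0.2]) (by positivity)
    have d1 : δ ≤ 1 - s := min_le_left _ _
    have d2 : δ ≤ r / (2 * ‖y - x‖) := min_le_right _ _
    have e : x + (s + δ) • (y - x) - (x + s • (y - x)) = δ • (y - x) := by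
      rw [add_smul]; abel
    refine ⟨x + (s + δ) • (y - x), ?_, ?_, ?_⟩
    · rw [segment_eq_image']
      exact ⟨s + δ, ⟨by linarith [hs0.1], by linarith⟩, rfl⟩
    · intro h
      rw [← sub_eq_zero, e, smul_eq_zero] at h
      rcases h with h | h
      · linarith
      · exact hxy (sub_eq_zero.1 h).symm
    · rw [dist_eq_norm, e, norm_smul, Real.norm_eq_abs, abs_of_pos d0]
      calc δ * ‖y - x‖ ≤ r / (2 * ‖y - x‖) * ‖y - x‖ := by gcongr
        _ = r / 2 := by field_simp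
        _ < r := by linarith

theorem nbr_lt {j : ℕ} (hj : j < 20) {e : ℕ × ℕ × ℤ × ℤ} (he : e ∈ nbr j) :
    e.1 < 20 ∧ e.2.1 < 4 ∧ (e.1 ∈ bumpIx ∨ e.1 = 4 ∨ e.1 = 13) := by
  have : ∀ j < 20, ∀ e ∈ nbr j, e.1 < 20 ∧ e.2.1 < 4 ∧ (e.1 ∈ bumpIx ∨ e.1 = 4 ∨ e.1 = 13) := by
    decide +kernel
  exact this j hj e he

/-- a development `φ` with faces placed by `c` -/
def Placed (φ : Set E3 → E3 → E2) (c : E2 → ℝ × ℝ) (x : ℕ × ℕ × ℤ × ℤ) : Prop :=
  x.1 < 20 ∧ x.2.1 < 4 ∧ ∀ p ∈ closure (FS (fd x.1)), c (φ (FS (fd x.1)) p) = G x.2 (fd x.1) (dc p)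

theorem placed_step {φ : Set E3 → E3 → E2} (hφ : IsEdgeUnfolding Sol φ) {c : E2 → ℝ × ℝ}
    (hc : ∀ z w, dsq (c z) (c w) = 4 * dist z w ^ 2) {j k : ℕ} (hj : j ∈ bumpIx) (hk : k < 20)
    (hjk : j ≠ k) {P : ℕ × ℤ × ℤ} (hP : Placed φ c (j, P))
    (hJ : Joined φ (FS (fd j)) (FS (fd k))) :
    ∃ e ∈ nbr j, e.1 = k ∧ Placed φ c (e.1, comp P e.2) := by
  have hj20 : j < 20 := hP.1
  obtain ⟨x, y, hxy, hseg, hag⟩ := hJ
  obtain ⟨z, i, hz, hev, hcl⟩ := seg_points hxy
  have cf : ∀ w ∈ segment ℝ x y, CF (fd j) (tv w) = true ∧ CF (fd k) (tv w) = true := by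
    intro w hw
    have := hseg hw
    rw [closure_FS (fd_mem hj20), closure_FS (fd_mem hk)] at this
    exact this
  have hie : (i : ℕ) ∈ evens (tv z) := mem_evens.2 ⟨i.2, by rw [get_tv]; exact hev⟩
  obtain ⟨hevz, e, he, hek, hcond⟩ := k3_spec hj hk hjk (cf z hz).1 (cf z hz).2 hie
  obtain ⟨r, hr, H⟩ := tv_near z
  obtain ⟨z', hz', hne, hd⟩ := hcl r hr
  have hnb := H z' hd
  have oddz : ∀ a, a ≤ 2 → a ≠ (i : ℕ) → get (tv z) a % 2 = 1 := by
    intro a ha hai
    by_contra h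
    have : a ∈ evens (tv z) := mem_evens.2 ⟨by omega, by omega⟩
    rw [hevz] at this
    simp only [List.mem_singleton] at this
    exact hai this
  have evz' : get (tv z') i = get (tv z) i := by
    have := get_nbt hnb i
    unfold nb1 at this
    rw [if_pos (by rw [get_tv]; exact hev)] at this
    simpa using this
  have hie' : (i : ℕ) ∈ evens (tv z') := mem_evens.2 ⟨i.2, by rw [evz', get_tv]; exact hev⟩
  obtain ⟨hevz', -⟩ := k3_spec hj hk hjk (cf z' hz').1 (cf z' hz').2 hie'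
  have same : ∀ a : Fin 3, get (tv z') a = get (tv z) a := by
    intro a
    by_cases hai : a = i
    · rw [hai]; exact evz'
    · have h1 := oddz a (by omega) (fun h => hai (Fin.ext h))
      have h2 : get (tv z') a % 2 = 1 := by
        by_contra h
        have : (a : ℕ) ∈ evens (tv z') := mem_evens.2 ⟨a.2, by omega⟩
        rw [hevz'] at this
        simp only [List.mem_singleton] at this
        exact hai (Fin.ext this)
      have := get_nbt hnb a
      exact ((nb1_odd h2 _).1 this).symm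
  have htv : tv z' = tv z := by
    have a0 := same 0
    have a1 := same 1
    have a2 := same 2
    exact Prod.ext a0 (Prod.ext a1 a2)
  obtain ⟨n1, n2, n3⟩ := nbr_lt hj20 he
  refine ⟨e, he, hek, n1, comp_lt _ _, ?_⟩
  have hFj : IsFace Sol (FS (fd j)) := (isFace_iff _).2 ⟨_, fd_mem hj20, rfl⟩
  have hFk : IsFace Sol (FS (fd k)) := (isFace_iff _).2 ⟨_, fd_mem hk, rfl⟩
  have hFne : FS (fd j) ≠ FS (fd k) := by
    intro h
    obtain ⟨p, hp⟩ := FS_nonempty (fd_mem hj20)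
    have := FS_sep (fd_mem hj20) (fd_mem hk) hp (h ▸ hp)
    exact hjk (fd_inj hj20 hk this)
  simp only
  rw [hek]
  exact step (fd_mem hj20) (fd_mem hk) hP.2.1 n2 hc (hφ.1 _ hFk) (hφ.2.1 _ _ hFj hFk hFne) hP.2.2
    (by omega) hcond rfl htv (Ne.symm hne) (by rw [get_tv]; exact hev) oddz (cf z hz).1
    (cf z hz).2 (hag z hz) (hag z' hz')

/-- odd type bounds -/
theorem odd_lt_ty {l : ℕ} (h1 : 1 ≤ l) (h2 : l % 2 = 1) {x : ℝ} (h : ((l : ℝ) - 7) / 2 < x) :
    l + 1 ≤ ty x := by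
  have e : (2 * (((l : ℤ) - 7) / 2) + 7).toNat = l := by omega
  have := ty_le (n := ((l : ℤ) - 7) / 2) (by omega) (x := x)
  rw [e] at this
  by_contra hc
  have h3 := this.1 (by omega)
  have e2 : ((((l : ℤ) - 7) / 2 : ℤ) : ℝ) = ((l : ℝ) - 7) / 2 := by
    have : (2 : ℤ) * (((l : ℤ) - 7) / 2) = (l : ℤ) - 7 := by omega
    have : (2 : ℝ) * ((((l : ℤ) - 7) / 2 : ℤ) : ℝ) = (l : ℝ) - 7 := by exact_mod_cast this
    linarith
  rw [e2] at h3
  linarith

theorem ty_lt_odd {l : ℕ} (h1 : 1 ≤ l) (h2 : l % 2 = 1) {x : ℝ} (h : x < ((l : ℝ) - 7) / 2) :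
    ty x ≤ l - 1 := by
  have e : (2 * (((l : ℤ) - 7) / 2) + 7).toNat = l := by omega
  have := le_ty (n := ((l : ℤ) - 7) / 2) (by omega) (x := x)
  rw [e] at this
  by_contra hc
  have h3 := this.1 (by omega)
  have e2 : ((((l : ℤ) - 7) / 2 : ℤ) : ℝ) = ((l : ℝ) - 7) / 2 := by
    have : (2 : ℤ) * (((l : ℤ) - 7) / 2) = (l : ℤ) - 7 := by omega
    have : (2 : ℝ) * ((((l : ℤ) - 7) / 2 : ℤ) : ℝ) = (l : ℝ) - 7 := by exact_mod_cast this
    linarith
  rw [e2] at h3
  linarith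

/-- every point of a placed open rectangle is the image of a point of the open face -/
theorem prect_spec {f : FD} (hf : f ∈ faces) {P : ℕ × ℤ × ℤ} (hP : P.1 < 4) {r : ℕ × ℕ × ℕ × ℕ}
    (hr : r ∈ f.2.2.2) {X : ℝ × ℝ} (h1 : ((prect f P r).1 : ℝ) < X.1) (h2 : X.1 < ((prect f P r).2.1 : ℝ))
    (h3 : ((prect f P r).2.2.1 : ℝ) < X.2) (h4 : X.2 < ((prect f P r).2.2.2 : ℝ)) :
    ∃ p ∈ FS f, G P f (dc p) = X := by
  obtain ⟨hf1, hf2, hf3, hf4⟩ := face_data hf
  obtain ⟨-, -, p1, p2, p3, p4, p5, p6⟩ := hf4 r hr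
  obtain ⟨a, s, l, R⟩ := f
  obtain ⟨r1, r2, r3, r4⟩ := r
  obtain ⟨P0, P1, P2⟩ := P
  obtain ⟨X1, X2⟩ := X
  simp only at *
  have q5 : (r1 : ℝ) + 2 ≤ r2 := by exact_mod_cast p5
  have q6 : (r3 : ℝ) + 2 ≤ r4 := by exact_mod_cast p6
  -- local coordinates
  have main : ∃ Y1 Y2 : ℝ, app (P0, P1, P2) ((Y1, (bif sgn (a, s, l, R) then Y2 else -Y2)) : ℝ × ℝ) = (X1, X2) ∧
      (r1 : ℝ) - 7 < Y1 ∧ Y1 < (r2 : ℝ) - 7 ∧ (r3 : ℝ) - 7 < Y2 ∧ Y2 < (r4 : ℝ) - 7 := by
    cases hs : sgn (a, s, l, R)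
    · interval_cases P0 <;>
        simp only [prect, hs, cond_false, app, rot_zero, rot_one, rot_two, rot_three', Int.cast_min,
          Int.cast_max, Int.cast_add, Int.cast_sub, Int.cast_neg, Int.cast_natCast, Int.cast_ofNat, Int.cast_id,
          min_lt_iff, lt_max_iff] at h1 h2 h3 h4 ⊢
      · refine ⟨X1 - P1, -(X2 - P2), by simp, ?_, ?_, ?_, ?_⟩
        · rcases h1 with h | h <;> linarith
        · rcases h2 with h | h <;> linarith
        · rcases h4 with h | h <;> linarith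
        · rcases h3 with h | h <;> linarith
      · refine ⟨X2 - P2, X1 - P1, by simp, ?_, ?_, ?_, ?_⟩
        · rcases h3 with h | h <;> linarith
        · rcases h4 with h | h <;> linarith
        · rcases h1 with h | h <;> linarith
        · rcases h2 with h | h <;> linarith
      · refine ⟨-(X1 - P1), X2 - P2, by simp, ?_, ?_, ?_, ?_⟩
        · rcases h2 with h | h <;> linarith
        · rcases h1 with h | h <;> linarith
        · rcases h3 with h | h <;> linarith
        · rcases h4 with h | h <;> linarith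
      · refine ⟨-(X2 - P2), -(X1 - P1), by simp, ?_, ?_, ?_, ?_⟩
        · rcases h4 with h | h <;> linarith
        · rcases h3 with h | h <;> linarith
        · rcases h2 with h | h <;> linarith
        · rcases h1 with h | h <;> linarith
    · interval_cases P0 <;>
        simp only [prect, hs, cond_true, app, rot_zero, rot_one, rot_two, rot_three', Int.cast_min,
          Int.cast_max, Int.cast_add, Int.cast_sub, Int.cast_neg, Int.cast_natCast, Int.cast_ofNat, Int.cast_id,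
          min_lt_iff, lt_max_iff] at h1 h2 h3 h4 ⊢
      · refine ⟨X1 - P1, X2 - P2, by simp, ?_, ?_, ?_, ?_⟩
        · rcases h1 with h | h <;> linarith
        · rcases h2 with h | h <;> linarith
        · rcases h3 with h | h <;> linarith
        · rcases h4 with h | h <;> linarith
      · refine ⟨X2 - P2, -(X1 - P1), by simp, ?_, ?_, ?_, ?_⟩
        · rcases h3 with h | h <;> linarith
        · rcases h4 with h | h <;> linarith
        · rcases h2 with h | h <;> linarith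
        · rcases h1 with h | h <;> linarith
      · refine ⟨-(X1 - P1), -(X2 - P2), by simp, ?_, ?_, ?_, ?_⟩
        · rcases h2 with h | h <;> linarith
        · rcases h1 with h | h <;> linarith
        · rcases h4 with h | h <;> linarith
        · rcases h3 with h | h <;> linarith
      · refine ⟨-(X2 - P2), X1 - P1, by simp, ?_, ?_, ?_, ?_⟩
        · rcases h4 with h | h <;> linarith
        · rcases h3 with h | h <;> linarith
        · rcases h1 with h | h <;> linarith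
        · rcases h2 with h | h <;> linarith
  obtain ⟨Y1, Y2, hY, y1, y2, y3, y4⟩ := main
  have t1 : r1 + 1 ≤ ty (Y1 / 2) := odd_lt_ty (by omega) p1 (by linarith)
  have t2 : ty (Y1 / 2) ≤ r2 - 1 := ty_lt_odd (by omega) p2 (by linarith)
  have t3 : r3 + 1 ≤ ty (Y2 / 2) := odd_lt_ty (by omega) p3 (by linarith)
  have t4 : ty (Y2 / 2) ≤ r4 - 1 := ty_lt_odd (by omega) p4 (by linarith)
  have tl : ty ((((l : ℤ) - 7 : ℤ) : ℝ) / 2) = l := by rw [ty_half]; omega
  interval_cases a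
  · refine ⟨!₂[(((l : ℤ) - 7 : ℤ) : ℝ) / 2, Y1 / 2, Y2 / 2], ?_, ?_⟩
    · show TF _ _ = true
      rw [TF_iff]
      exact ⟨tl, _, hr, ⟨t1, t2⟩, ⟨t3, t4⟩⟩
    · rw [← hY]
      unfold G loc
      simp only [o0, o1, dc]
      have e1 : 2 * (Y1 / 2) = Y1 := by ring
      have e2 : 2 * (Y2 / 2) = Y2 := by ring
      show app _ (2 * (Y1 / 2), bif sgn _ then 2 * (Y2 / 2) else -(2 * (Y2 / 2))) = _
      rw [e1, e2]
  · refine ⟨!₂[Y1 / 2, (((l : ℤ) - 7 : ℤ) : ℝ) / 2, Y2 / 2], ?_, ?_⟩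
    · show TF _ _ = true
      rw [TF_iff]
      exact ⟨tl, _, hr, ⟨t1, t2⟩, ⟨t3, t4⟩⟩
    · rw [← hY]
      unfold G loc
      simp only [o0, o1, dc]
      have e1 : 2 * (Y1 / 2) = Y1 := by ring
      have e2 : 2 * (Y2 / 2) = Y2 := by ring
      show app _ (2 * (Y1 / 2), bif sgn _ then 2 * (Y2 / 2) else -(2 * (Y2 / 2))) = _
      rw [e1, e2]
  · refine ⟨!₂[Y1 / 2, Y2 / 2, (((l : ℤ) - 7 : ℤ) : ℝ) / 2], ?_, ?_⟩
    · show TF _ _ = true
      rw [TF_iff]
      exact ⟨tl, _, hr, ⟨t1, t2⟩, ⟨t3, t4⟩⟩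
    · rw [← hY]
      unfold G loc
      simp only [o0, o1, dc]
      have e1 : 2 * (Y1 / 2) = Y1 := by ring
      have e2 : 2 * (Y2 / 2) = Y2 := by ring
      show app _ (2 * (Y1 / 2), bif sgn _ then 2 * (Y2 / 2) else -(2 * (Y2 / 2))) = _
      rw [e1, e2]

theorem overl_spec {φ : Set E3 → E3 → E2} (hφ : IsEdgeUnfolding Sol φ) {c : E2 → ℝ × ℝ}
    (hc : ∀ z w, dsq (c z) (c w) = 4 * dist z w ^ 2) {x y : ℕ × ℕ × ℤ × ℤ} (hx : Placed φ c x)
    (hy : Placed φ c y) (hxy : x.1 ≠ y.1) : overl (fd x.1) x.2 (fd y.1) y.2 = false := by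
  by_contra h
  rw [Bool.not_eq_false] at h
  simp only [overl, List.any_eq_true, Bool.and_eq_true, decide_eq_true_eq] at h
  obtain ⟨r, hr, q, hq, h1, h2⟩ := h
  obtain ⟨hx1, hx2, hx3⟩ := hx
  obtain ⟨hy1, hy2, hy3⟩ := hy
  set a := prect (fd x.1) x.2 r with ha
  set b := prect (fd y.1) y.2 q with hb
  have h1' : max (a.1 : ℝ) b.1 < min (a.2.1 : ℝ) b.2.1 := by exact_mod_cast h1
  have h2' : max (a.2.2.1 : ℝ) b.2.2.1 < min (a.2.2.2 : ℝ) b.2.2.2 := by exact_mod_cast h2
  obtain ⟨X1, u1, u2⟩ := exists_between h1'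
  obtain ⟨X2, v1, v2⟩ := exists_between h2'
  rw [max_lt_iff] at u1 v1
  rw [lt_min_iff] at u2 v2
  obtain ⟨p, hp, hpX⟩ := prect_spec (fd_mem hx1) hx2 hr (X := (X1, X2)) u1.1 u2.1 v1.1 v2.1
  obtain ⟨p', hp', hpX'⟩ := prect_spec (fd_mem hy1) hy2 hq (X := (X1, X2)) u1.2 u2.2 v1.2 v2.2
  have e1 := hx3 p (subset_closure hp)
  have e2 := hy3 p' (subset_closure hp')
  have hFx : IsFace Sol (FS (fd x.1)) := (isFace_iff _).2 ⟨_, fd_mem hx1, rfl⟩
  have hFy : IsFace Sol (FS (fd y.1)) := (isFace_iff _).2 ⟨_, fd_mem hy1, rfl⟩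
  have hFne : FS (fd x.1) ≠ FS (fd y.1) := by
    intro h
    have := FS_sep (fd_mem hx1) (fd_mem hy1) hp (h ▸ hp)
    exact hxy (fd_inj hx1 hy1 this)
  have heq : φ (FS (fd x.1)) p = φ (FS (fd y.1)) p' := by
    have h3 := hc (φ (FS (fd x.1)) p) (φ (FS (fd y.1)) p')
    rw [e1, e2, hpX, hpX'] at h3
    have h8 : dist (φ (FS (fd x.1)) p) (φ (FS (fd y.1)) p') ^ 2 = 0 := by
      have : dsq (X1, X2) (X1, X2) = 0 := by unfold dsq; ring
      linarith
    exact dist_eq_zero.1 (by simpa using h8)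
  exact Set.disjoint_left.1 (hφ.2.1 _ _ hFx hFy hFne) ⟨p, hp, rfl⟩ ⟨p', hp', heq.symm⟩

/-- the dual graph of the joints -/
def Gr (φ : Set E3 → E3 → E2) : SimpleGraph (Fin 20) where
  Adj j k := j ≠ k ∧ (Joined φ (FS (fd j)) (FS (fd k)))
  symm := ⟨by
    rintro j k ⟨h, x, y, hxy, h1, h2⟩
    exact ⟨h.symm, x, y, hxy, h1.trans (by rw [inter_comm]), fun z hz => (h2 z hz).symm⟩⟩
  loopless := ⟨fun j h => h.1 rfl⟩

theorem no_path {φ : Set E3 → E3 → E2} (hφ : IsEdgeUnfolding Sol φ) {c : E2 → ℝ × ℝ}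
    (hc : ∀ z w, dsq (c z) (c w) = 4 * dist z w ^ 2) {v : Fin 20} (hv : (v : ℕ) = 4) :
    ∀ (n : ℕ) (u : Fin 20) (P : ℕ × ℤ × ℤ) (L : List (ℕ × ℕ × ℤ × ℤ)) (p : (Gr φ).Walk u v),
      dead n (((u : ℕ), P) :: L) = true → p.IsPath → (∀ x ∈ ((u : ℕ), P) :: L, Placed φ c x) →
      (∀ x ∈ L, ∀ w ∈ p.support, (w : ℕ) ≠ x.1) → (u : ℕ) ∈ bumpIx → False
  | 0, _, _, _, _, h, _, _, _, _ => by simp [dead] at h
  | n + 1, u, P, L, p, h, hp, hpl, hdis, hu => by
      cases p with
      | nil =>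
        rw [hv] at hu
        revert hu; decide
      | @cons _ w _ hadj p' =>
        rw [SimpleGraph.Walk.cons_isPath_iff] at hp
        have huw : (u : ℕ) ≠ (w : ℕ) := fun h => hadj.1 (Fin.ext h)
        obtain ⟨e, he, hew, hpe⟩ := placed_step hφ hc hu w.2 huw (hpl _ (List.mem_cons_self)) hadj.2
        simp only [dead, List.all_eq_true] at h
        have h1 := h e he
        simp only [Bool.or_eq_true, Bool.and_eq_true, List.any_eq_true] at h1
        rcases h1 with ⟨x, hx, hxe⟩ | h1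
        · rw [Nat.beq_eq] at hxe
          rcases List.mem_cons.1 hx with rfl | hx
          · exact huw (by rw [← hew]; exact hxe)
          · exact hdis x hx w (by simp) (by rw [← hew, hxe])
        rcases h1 with ⟨x, hx, hxo⟩ | h1
        · have hxw : x.1 ≠ e.1 := by
            rcases List.mem_cons.1 hx with rfl | hx
            · rw [hew]; exact huw
            · intro h
              exact hdis x hx w (by simp) (by rw [← hew, h])
          have := overl_spec hφ hc (hpl x hx) hpe hxw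
          rw [this] at hxo
          exact Bool.false_ne_true hxo
        obtain ⟨h4, h13, hd⟩ := h1
        have hbw : (w : ℕ) ∈ bumpIx := by
          obtain ⟨-, -, h5⟩ := nbr_lt (hpl _ (List.mem_cons_self)).1 he
          rw [hew] at h5 h4 h13
          rcases h5 with h5 | h5 | h5
          · exact h5
          · rw [h5] at h4; simp at h4
          · rw [h5] at h13; simp at h13
        rw [hew] at hd hpe
        refine no_path hφ hc hv n w (comp P e.2) (((u : ℕ), P) :: L) p' hd hp.1 ?_ ?_ hbw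
        · intro x hx
          rcases List.mem_cons.1 hx with rfl | hx
          · exact hpe
          · exact hpl x hx
        · intro x hx w' hw'
          rcases List.mem_cons.1 hx with rfl | hx
          · intro h
            have : w' = u := Fin.ext h
            exact hp.2 (this ▸ hw')
          · exact hdis x hx w' (by simp [hw'])

theorem no_unfolding : ¬ ∃ φ, IsEdgeUnfolding Sol φ := by
  rintro ⟨φ, hφ⟩
  have h17 : fd 17 ∈ faces := fd_mem (by norm_num)
  have h4 : fd 4 ∈ faces := fd_mem (by norm_num)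
  have hF17 : IsFace Sol (FS (fd 17)) := (isFace_iff _).2 ⟨_, h17, rfl⟩
  have hF4 : IsFace Sol (FS (fd 4)) := (isFace_iff _).2 ⟨_, h4, rfl⟩
  obtain ⟨c, hc, hcx⟩ := frame (hφ.1 _ hF17)
  have reach : ∀ X, Relation.ReflTransGen (fun A B => IsFace Sol A ∧ IsFace Sol B ∧ Joined φ A B)
      (FS (fd 17)) X → ∃ k : Fin 20, X = FS (fd k) ∧ (Gr φ).Reachable 17 k := by
    intro X hX
    induction hX with
    | refl => exact ⟨17, rfl, SimpleGraph.Reachable.refl _⟩
    | tail _ hstep ih =>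
      obtain ⟨k, rfl, hk⟩ := ih
      obtain ⟨-, hB, hJ⟩ := hstep
      obtain ⟨f, hf, rfl⟩ := (isFace_iff _).1 hB
      obtain ⟨i, hi, rfl⟩ := mem_fd hf
      by_cases hki : k = ⟨i, hi⟩
      · subst hki
        exact ⟨_, rfl, hk⟩
      · refine ⟨⟨i, hi⟩, rfl, hk.trans (SimpleGraph.Adj.reachable ⟨hki, hJ⟩)⟩
  obtain ⟨k, hk, hr⟩ := reach _ (hφ.2.2 _ _ hF17 hF4)
  have hk4 : (k : ℕ) = 4 := by
    obtain ⟨p, hp⟩ := FS_nonempty h4
    have := FS_sep h4 (fd_mem k.2) hp (hk ▸ hp)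
    exact (fd_inj (by norm_num) k.2 this).symm
  obtain ⟨p, hp⟩ := hr.exists_isPath
  refine no_path hφ hc hk4 20 17 (0, 0, 0) [] p K5 hp ?_ (by simp) (by decide)
  intro x hx
  simp only [List.mem_singleton] at hx
  subst hx
  exact ⟨by norm_num, by norm_num, hcx⟩

end H407R3.Ortho
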